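import Pool.Agent.Helper38.Trs2.Lin
import Pool.Agent.Helper38.PiE.Data

/-!
# Project `trs2`: one of `πe, π^π, e^(π²)` is transcendental
-/

set_option autoImplicit false

namespace Pool.Agent.Helper38.Trs2

open Complex _root_.Trs _root_.Trs.H40 Pool.Agent.Helper38.PiE

theorem ne0 {m : ℕ} {T : Finset (Fin m)} {g : Fin m → ℤ} (h : ∀ k, k ∉ T → g k = 0)
    (h' : ∀ k ∈ T, g k = 0) : g = 0 := by
  funext k
  by_cases hk : k ∈ T
  · exact h' k hk
  · exact h k hk

/-- the linear shape condition for `248` -/
theorem shape248 (P La PL : ℝ) (hP : P ≠ 0) (hLa : La ≠ 0) (hPL : PL ≠ 0)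
    (γ : Fin 4 → Fin 4 → ℂ) (hγ : γ = ![![-1, 0, I * P, 0], ![I, 0, 0, I * P],
      ![0, I * P, (P : ℂ) ^ 2, 0], ![-1, La, 0, PL]]) (w : Fin 2 → Fin 4 → ℂ)
    (hw : w = ![![1, -1, 0, 0], ![0, 0, 1, -I]]) :
    Trs2.ShapeL (m := 4) (r := 2) ![false, true, true, true] γ w 59 41 17 58 := by
  intro ca cm lam mu hlam hmu hsl hsm h0
  have l1 : ∀ j, lam j 1 = 0 := fun j => hsl j 1 rfl
  have l2 : ∀ j, lam j 2 = 0 := fun j => hsl j 2 rfl
  have l3 : ∀ j, lam j 3 = 0 := fun j => hsl j 3 rfl
  have m0 : ∀ j, mu j 0 = 0 := fun j => hsm j 0 rfl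
  have hca : ca ≤ 1 := by
    have := card_le_of_supp {0} lam hlam (by
      intro j i hi
      fin_cases i
      · simp at hi
      · exact l1 j
      · exact l2 j
      · exact l3 j)
    simpa using this
  have hcm : cm ≤ 3 := by
    have := card_le_of_supp {1, 2, 3} mu hmu (by
      intro j i hi
      fin_cases i
      · exact m0 j
      · simp at hi
      · simp at hi
      · simp at hi)
    exact this.trans (by decide)
  have g0 : ∀ g : Fin 4 → ℤ, gp γ g 0 = -g 0 + I * g 1 - g 3 := by
    intro g; simp [gp, hγ, Fin.sum_univ_four]; ring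
  have r1 : ∀ g : Fin 4 → ℤ, (gp γ g 1).re = g 3 * La := by
    intro g; simp [gp, hγ, Fin.sum_univ_four]
  have r2 : ∀ g : Fin 4 → ℤ, (gp γ g 2).re = g 2 * P ^ 2 := by
    intro g
    have : ((P : ℂ) ^ 2).re = P ^ 2 := by rw [← Complex.ofReal_pow, Complex.ofReal_re]
    simp [gp, hγ, Fin.sum_univ_four, this]
  have r3 : ∀ g : Fin 4 → ℤ, (gp γ g 3).re = g 3 * PL := by
    intro g; simp [gp, hγ, Fin.sum_univ_four]
  -- the additive part
  have hA : ∀ g : Fin 4 → ℤ, ∀ j : Fin ca, lam j 0 ≠ 0 →
      (∑ i, lam j i * gp γ g i = 0) → g 1 = 0 ∧ g 0 + g 3 = 0 := by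
    intro g j hj h
    rw [Fin.sum_univ_four, l1, l2, l3] at h
    have h1 : gp γ g 0 = 0 := by simpa [hj] using h
    rw [g0] at h1
    have hre := congrArg Complex.re h1
    have him := congrArg Complex.im h1
    simp at hre him
    refine ⟨by exact_mod_cast him, ?_⟩
    have : -((g 0 : ℝ) + g 3) = 0 := by linear_combination hre
    have h2 : ((g 0 + g 3 : ℤ) : ℝ) = 0 := by push_cast; linarith
    exact_mod_cast h2
  have hR : ∀ (g : Fin 4 → ℤ) (j : Fin cm), Complex.exp (∑ i, (mu j i : ℂ) * gp γ g i) = 1 →
      (mu j 1 : ℝ) * (g 3 * La) + mu j 2 * (g 2 * P ^ 2) + mu j 3 * (g 3 * PL) = 0 := by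
    intro g j h
    have h1 := re_rel γ g (mu j) h
    rw [Fin.sum_univ_four, r1, r2, r3, m0] at h1
    simpa using h1
  have hX0 : ∀ (x : Fin 2 → ℂ) (j : Fin ca), (∑ i, lam j i * (∑ k, x k * w k i) = 0) →
      lam j 0 * x 0 = 0 := by
    intro x j h
    rw [Fin.sum_univ_four, l1, l2, l3] at h
    simpa [hw, Fin.sum_univ_two] using h
  have hX : ∀ (x : Fin 2 → ℂ) (j : Fin cm), (∑ i, (mu j i : ℂ) * (∑ k, x k * w k i) = 0) →
      -(mu j 1 : ℂ) * x 0 + (mu j 2 - I * mu j 3) * x 1 = 0 := by
    intro x j h
    rw [Fin.sum_univ_four, m0] at h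
    simp [hw, Fin.sum_univ_two] at h
    linear_combination h
  have hI : ∀ a b : ℤ, (a : ℂ) - I * b = 0 → a = 0 ∧ b = 0 := by
    intro a b h
    have hre := congrArg Complex.re h
    have him := congrArg Complex.im h
    simp at hre him
    exact ⟨hre, him⟩
  -- full rank for cm = 3
  have hfull : cm = 3 → ∀ g : Fin 4 → ℤ, (∀ j, Complex.exp (∑ i, (mu j i : ℂ) * gp γ g i) = 1) →
      g 2 = 0 ∧ g 3 = 0 := by
    intro hc g hg
    have h := full_rank {1, 2, 3} mu hmu (by
      intro j i hi
      fin_cases i
      · exact m0 j
      · simp at hi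
      · simp at hi
      · simp at hi) (by rw [hc]; decide) (fun i => (gp γ g i).re) (fun j => re_rel γ g (mu j) (hg j))
    have h2 := h 2 (by decide)
    have h3 := h 3 (by decide)
    simp only [r2, r3] at h2 h3
    constructor
    · simpa [hP] using h2
    · simpa [hPL] using h3
  have hfullX : cm = 3 → ∀ x : Fin 2 → ℂ, (∀ j, ∑ i, (mu j i : ℂ) * (∑ k, x k * w k i) = 0) →
      x = 0 := by
    intro hc x hx
    have h := full_rank {1, 2, 3} mu hmu (by
      intro j i hi
      fin_cases i
      · exact m0 j
      · simp at hi
      · simp at hi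
      · simp at hi) (by rw [hc]; decide) (fun i => ∑ k, x k * w k i) hx
    have h1 := h 1 (by decide)
    have h2 := h 2 (by decide)
    simp [hw, Fin.sum_univ_two] at h1 h2
    funext k
    fin_cases k
    · exact h1
    · exact h2
  have hca' : ca = 0 ∨ ca = 1 := by omega
  rcases hca' with rfl | rfl
  · -- ca = 0
    have hcm' : cm = 1 ∨ cm = 2 ∨ cm = 3 := by omega
    rcases hcm' with rfl | rfl | rfl
    · -- cm = 1
      by_cases hm1 : mu 0 1 = 0
      · refine ⟨∅, {1}, fun g hg _ _ => ne0 hg (by simp), fun x hx _ hx2 => ?_, by simp⟩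
        have x0 : x 0 = 0 := hx 0 (by simp)
        have h1 := hX x 0 (hx2 0)
        rw [x0, hm1] at h1
        have h2 : x 1 = 0 := by
          by_contra hne
          have h3 : ((mu 0 2 : ℂ) - I * mu 0 3) * x 1 = 0 := by simpa using h1
          obtain ⟨h4, h5⟩ := hI _ _ ((mul_eq_zero.1 h3).resolve_right hne)
          obtain ⟨i, hi⟩ := one_ne hmu
          apply hi
          fin_cases i
          · exact m0 0
          · exact hm1
          · exact h4
          · exact h5
        funext k
        fin_cases k
        · exact x0
        · exact h2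
      · refine ⟨∅, {0}, fun g hg _ _ => ne0 hg (by simp), fun x hx _ hx2 => ?_, by simp⟩
        have x1 : x 1 = 0 := hx 1 (by simp)
        have h1 := hX x 0 (hx2 0)
        rw [x1] at h1
        have hm1' : (mu 0 1 : ℂ) ≠ 0 := by exact_mod_cast hm1
        have x0 : x 0 = 0 := by simpa [hm1'] using h1
        funext k
        fin_cases k
        · exact x0
        · exact x1
    · -- cm = 2
      by_cases hr : ∀ x : Fin 2 → ℂ, (∀ j, ∑ i, (mu j i : ℂ) * (∑ k, x k * w k i) = 0) → x = 0
      · exact ⟨∅, Finset.univ, fun g hg _ _ => ne0 hg (by simp), fun x _ _ hx2 => hr x hx2,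
          by simp⟩
      · push Not at hr
        obtain ⟨x, hx, hx0⟩ := hr
        have e0 := hX x 0 (hx 0)
        have e1 := hX x 1 (hx 1)
        have hx0' : x 0 ≠ 0 := by
          intro h
          have h1 : x 1 ≠ 0 := by
            intro h1
            apply hx0
            funext k
            fin_cases k
            · exact h
            · exact h1
          rw [h] at e0 e1
          have e0' : ((mu 0 2 : ℂ) - I * mu 0 3) * x 1 = 0 := by simpa using e0
          have e1' : ((mu 1 2 : ℂ) - I * mu 1 3) * x 1 = 0 := by simpa using e1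
          obtain ⟨a2, a3⟩ := hI _ _ ((mul_eq_zero.1 e0').resolve_right h1)
          obtain ⟨b2, b3⟩ := hI _ _ ((mul_eq_zero.1 e1').resolve_right h1)
          have key := pair_ind hmu (mu 1 1) (-mu 0 1) (by
            intro i
            fin_cases i
            · simp [m0]
            · simp; ring
            · simp [a2, b2]
            · simp [a3, b3])
          have key2 := pair_ind hmu 1 0 (by
            intro i
            fin_cases i
            · simp [m0]
            · simpa using key.2
            · simp [a2]
            · simp [a3])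
          simp at key2
        -- z = x 1 / x 0
        obtain ⟨z, hz⟩ : ∃ z : ℂ, x 1 = z * x 0 := ⟨x 1 / x 0, by field_simp⟩
        have f0 : (mu 0 1 : ℂ) = (mu 0 2 - I * mu 0 3) * z := by
          rw [hz] at e0
          have : x 0 * ((mu 0 1 : ℂ) - (mu 0 2 - I * mu 0 3) * z) = 0 := by
            linear_combination -e0
          have := (mul_eq_zero.1 this).resolve_left hx0'
          linear_combination this
        have f1 : (mu 1 1 : ℂ) = (mu 1 2 - I * mu 1 3) * z := by
          rw [hz] at e1
          have : x 0 * ((mu 1 1 : ℂ) - (mu 1 2 - I * mu 1 3) * z) = 0 := by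
            linear_combination -e1
          have := (mul_eq_zero.1 this).resolve_left hx0'
          linear_combination this
        -- the determinant
        have hD : mu 0 2 * mu 1 3 - mu 0 3 * mu 1 2 ≠ 0 := by
          intro hD
          have t1 : ∀ a b : ℤ, a * mu 0 2 + b * mu 1 2 = 0 → a * mu 0 3 + b * mu 1 3 = 0 →
              a = 0 ∧ b = 0 := by
            intro a b h2 h3
            apply pair_ind hmu
            intro i
            fin_cases i
            · simp [m0]
            · have : ((a * mu 0 1 + b * mu 1 1 : ℤ) : ℂ) = 0 := by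
                have h2' : (a : ℂ) * mu 0 2 + b * mu 1 2 = 0 := by exact_mod_cast h2
                have h3' : (a : ℂ) * mu 0 3 + b * mu 1 3 = 0 := by exact_mod_cast h3
                push_cast
                rw [f0, f1]
                linear_combination z * h2' - I * z * h3'
              exact_mod_cast this
            · exact h2
            · exact h3
          have t2 := t1 (mu 1 3) (-mu 0 3) (by linear_combination hD) (by ring)
          have t3 := t1 (mu 1 2) (-mu 0 2) (by ring) (by linear_combination -hD)
          have t4 := t1 1 0 (by linarith [t3.2]) (by linarith [t2.2])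
          simp at t4
        have g1 := congrArg Complex.im f0
        have g2 := congrArg Complex.im f1
        simp at g1 g2
        -- Im ((m2 - i m3) z) = m2 z.im - m3 z.re
        have hDr : ((mu 0 2 : ℝ) * mu 1 3 - mu 0 3 * mu 1 2) ≠ 0 := by exact_mod_cast hD
        have hzr : z.re = 0 := by
          have : ((mu 0 2 : ℝ) * mu 1 3 - mu 0 3 * mu 1 2) * z.re = 0 := by
            linear_combination -(mu 1 2 : ℝ) * g1 + (mu 0 2 : ℝ) * g2
          exact (mul_eq_zero.1 this).resolve_left hDr
        have hzi : z.im = 0 := by
          have : ((mu 0 2 : ℝ) * mu 1 3 - mu 0 3 * mu 1 2) * z.im = 0 := by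
            linear_combination -(mu 1 3 : ℝ) * g1 + (mu 0 3 : ℝ) * g2
          exact (mul_eq_zero.1 this).resolve_left hDr
        have hz0 : z = 0 := Complex.ext hzr hzi
        rw [hz0] at f0 f1
        have k0 : mu 0 1 = 0 := by simpa using f0
        have k1 : mu 1 1 = 0 := by simpa using f1
        refine ⟨{2, 3}, {0, 1} \ (if x 1 = 0 then {0} else {1}), ?_, ?_, ?_⟩
        · intro g hg _ hg2
          have h := full_rank (K := ℝ) {2, 3} mu hmu (by
            intro j i hi
            fin_cases i
            · exact m0 j
            · fin_cases j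
              · exact k0
              · exact k1
            · simp at hi
            · simp at hi) (by decide) (fun i => (gp γ g i).re)
              (fun j => re_rel γ g (mu j) (hg2 j))
          have h2 := h 2 (by decide)
          have h3 := h 3 (by decide)
          simp only [r2, r3] at h2 h3
          refine ne0 hg ?_
          intro k hk
          simp only [Finset.mem_insert, Finset.mem_singleton] at hk
          rcases hk with rfl | rfl
          · simpa [hP] using h2
          · simpa [hPL] using h3
        · rw [hz, hz0, zero_mul, if_pos rfl]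
          intro y hy _ hy2
          have y0 : y 0 = 0 := hy 0 (by decide)
          have h1 := hX y 0 (hy2 0)
          have h2 := hX y 1 (hy2 1)
          rw [y0] at h1 h2
          have y1 : y 1 = 0 := by
            by_contra hne
            have h3 : ((mu 0 2 : ℂ) - I * mu 0 3) * y 1 = 0 := by simpa using h1
            have h4 : ((mu 1 2 : ℂ) - I * mu 1 3) * y 1 = 0 := by simpa using h2
            obtain ⟨a2, a3⟩ := hI _ _ ((mul_eq_zero.1 h3).resolve_right hne)
            apply hD
            rw [a2, a3]
            ring
          funext k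
          fin_cases k
          · exact y0
          · exact y1
        · rw [hz, hz0, zero_mul, if_pos rfl]
          decide
    · -- cm = 3
      refine ⟨{2}, Finset.univ, ?_, fun x _ _ hx2 => hfullX rfl x hx2, by simp⟩
      intro g hg _ hg2
      refine ne0 hg ?_
      intro k hk
      rw [Finset.mem_singleton] at hk
      subst hk
      exact (hfull rfl g hg2).1
  · -- ca = 1
    have hl0 : lam 0 0 ≠ 0 := by
      obtain ⟨i, hi⟩ := one_ne hlam
      fin_cases i
      · exact hi
      · exact absurd (l1 0) hi
      · exact absurd (l2 0) hi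
      · exact absurd (l3 0) hi
    have hcm' : cm = 0 ∨ cm = 1 ∨ cm = 2 ∨ cm = 3 := by omega
    rcases hcm' with rfl | rfl | rfl | rfl
    · -- cm = 0
      refine ⟨{0}, {0}, ?_, ?_, by simp⟩
      · intro g hg hg1 _
        have h1 := hA g 0 hl0 (hg1 0)
        have h3 : g 3 = 0 := hg 3 (by decide)
        refine ne0 hg ?_
        intro k hk
        rw [Finset.mem_singleton] at hk
        subst hk
        linarith [h1.2]
      · intro x hx hx1 _
        have h1 := hX0 x 0 (hx1 0)
        have x1 : x 1 = 0 := hx 1 (by decide)
        have x0 : x 0 = 0 := (mul_eq_zero.1 h1).resolve_left hl0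
        funext k
        fin_cases k
        · exact x0
        · exact x1
    · -- cm = 1
      by_cases hm : mu 0 2 = 0 ∧ mu 0 3 = 0
      · have hm1 : mu 0 1 ≠ 0 := by
          intro h
          obtain ⟨i, hi⟩ := one_ne hmu
          apply hi
          fin_cases i
          · exact m0 0
          · exact h
          · exact hm.1
          · exact hm.2
        refine ⟨{0, 1, 3}, {0}, ?_, ?_, by decide⟩
        · intro g hg hg1 hg2
          have h1 := hA g 0 hl0 (hg1 0)
          have h2 := hR g 0 (hg2 0)
          rw [hm.1, hm.2] at h2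
          have hm1' : (mu 0 1 : ℝ) ≠ 0 := by exact_mod_cast hm1
          have g3 : g 3 = 0 := by simpa [hm1', hLa] using h2
          refine ne0 hg ?_
          intro k hk
          simp only [Finset.mem_insert, Finset.mem_singleton] at hk
          rcases hk with rfl | rfl | rfl
          · linarith [h1.2]
          · exact h1.1
          · exact g3
        · intro x hx hx1 _
          have h1 := hX0 x 0 (hx1 0)
          have x1 : x 1 = 0 := hx 1 (by decide)
          have x0 : x 0 = 0 := (mul_eq_zero.1 h1).resolve_left hl0
          funext k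
          fin_cases k
          · exact x0
          · exact x1
      · refine ⟨∅, Finset.univ, fun g hg _ _ => ne0 hg (by simp), ?_, by simp⟩
        intro x hx hx1 hx2
        have h1 := hX0 x 0 (hx1 0)
        have x0 : x 0 = 0 := (mul_eq_zero.1 h1).resolve_left hl0
        have h2 := hX x 0 (hx2 0)
        rw [x0] at h2
        have x1 : x 1 = 0 := by
          by_contra hne
          have h3 : ((mu 0 2 : ℂ) - I * mu 0 3) * x 1 = 0 := by simpa using h2
          exact hm (hI _ _ ((mul_eq_zero.1 h3).resolve_right hne))
        funext k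
        fin_cases k
        · exact x0
        · exact x1
    · -- cm = 2
      obtain ⟨j, hj⟩ : ∃ j : Fin 2, ¬ (mu j 2 = 0 ∧ mu j 3 = 0) := by
        by_contra hcon
        push Not at hcon
        have a := hcon 0
        have b := hcon 1
        have key := pair_ind hmu (mu 1 1) (-mu 0 1) (by
          intro i
          fin_cases i
          · simp [m0]
          · simp; ring
          · simp [a.1, b.1]
          · simp [a.2, b.2])
        have key2 := pair_ind hmu 1 0 (by
          intro i
          fin_cases i
          · simp [m0]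
          · simpa using key.2
          · simp [a.1]
          · simp [a.2])
        simp at key2
      refine ⟨{0, 1}, Finset.univ, ?_, ?_, by decide⟩
      · intro g hg hg1 _
        have h1 := hA g 0 hl0 (hg1 0)
        have h3 : g 3 = 0 := hg 3 (by decide)
        refine ne0 hg ?_
        intro k hk
        simp only [Finset.mem_insert, Finset.mem_singleton] at hk
        rcases hk with rfl | rfl
        · linarith [h1.2]
        · exact h1.1
      · intro x hx hx1 hx2
        have h1 := hX0 x 0 (hx1 0)
        have x0 : x 0 = 0 := (mul_eq_zero.1 h1).resolve_left hl0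
        have h2 := hX x j (hx2 j)
        rw [x0] at h2
        have x1 : x 1 = 0 := by
          by_contra hne
          have h3 : ((mu j 2 : ℂ) - I * mu j 3) * x 1 = 0 := by simpa using h2
          exact hj (hI _ _ ((mul_eq_zero.1 h3).resolve_right hne))
        funext k
        fin_cases k
        · exact x0
        · exact x1
    · -- cm = 3
      refine ⟨Finset.univ, Finset.univ, ?_, fun x _ _ hx2 => hfullX rfl x hx2, by decide⟩
      intro g _ hg1 hg2
      have h1 := hA g 0 hl0 (hg1 0)
      have h2 := hfull rfl g hg2
      funext k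
      fin_cases k
      · have := h1.2
        have h3 := h2.2
        simp only [Fin.zero_eta, Fin.isValue, Pi.zero_apply]
        linarith
      · exact h1.1
      · exact h2.1
      · exact h2.2

/-- **248**: one of `πe, π^π, e^(π²)` is transcendental. -/
theorem st_248 (hM : Trs2.S_Main) : Trs2.S_248 := by
  by_contra hcon
  have h := not_some hcon
  have h2 := pie (h := h 2 (by simp))
  have h4 := pipi (h := h 4 (by simp))
  have h8 := epi2 (h := h 8 (by simp))
  have h2' := exp_pie (h := h 2 (by simp))
  have hl := logpi_pos
  refine hM 4 4 2 ![false, true, true, true]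
    ![![-1, 0, I * (Real.pi : ℂ), 0], ![I, 0, 0, I * (Real.pi : ℂ)],
      ![0, I * (Real.pi : ℂ), (Real.pi : ℂ) ^ 2, 0],
      ![-1, ((Real.log Real.pi + 1 : ℝ) : ℂ), 0, ((Real.log Real.pi * Real.pi : ℝ) : ℂ)]]
    ![![1, -1, 0, 0], ![0, 0, 1, -I]]
    ![-(Real.pi : ℂ), -(Real.pi : ℂ), I, 1] ?_ ?_ ?_ ?_ ?_ 60 59 41 17 58
    (by norm_num) (by norm_num) (by norm_num) (by decide)
    (shape248 Real.pi (Real.log Real.pi + 1) (Real.log Real.pi * Real.pi) Real.pi_ne_zero
      (by positivity) (mul_ne_zero hl.ne' Real.pi_ne_zero) _ rfl _ rfl)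
  · intro h
    have := congrFun h 3
    simp at this
  · intro k
    fin_cases k
    · simp [Fin.sum_univ_four]
      linear_combination (Real.pi : ℂ) * I_sq
    · simp [Fin.sum_univ_four]; ring
    · simp [Fin.sum_univ_four]; ring
    · simp [Fin.sum_univ_four]; ring
  · intro k
    fin_cases k <;> simp [Fin.sum_univ_four]
  · intro k i
    have hi := alg_I
    have hpi := exp_I_pi_alg
    have hz : IsAlgebraic ℚ (0 : ℂ) := isAlgebraic_zero
    have ho : IsAlgebraic ℚ (1 : ℂ) := isAlgebraic_one
    have hn := alg_neg_one
    fin_cases k <;> fin_cases i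
    · simpa using hn
    · simpa using ho
    · simpa using hpi
    · simpa using ho
    · simpa using hi
    · simpa using ho
    · simpa using ho
    · simpa using hpi
    · simpa using hz
    · simpa using hpi
    · simpa using h8
    · simpa using ho
    · simpa using hn
    · simpa using h2'
    · simpa using ho
    · simpa using h4
  · intro k i
    have hi : IsAlgebraic ℚ (-I) := alg_I.neg
    have hz : IsAlgebraic ℚ (0 : ℂ) := isAlgebraic_zero
    have ho : IsAlgebraic ℚ (1 : ℂ) := isAlgebraic_one
    have hn := alg_neg_one
    fin_cases k <;> fin_cases i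
    · simpa using ho
    · simpa using hn
    · simpa using hz
    · simpa using hz
    · simpa using hz
    · simpa using hz
    · simpa using ho
    · simpa using hi

end Pool.Agent.Helper38.Trs2
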