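import Pool.Agent.Helper38.Trs2.Lin2
import Pool.Agent.Helper38.Trs2.I248

/-!
# Project `trs2`: one of `πe, π^e, e^(π²)` is transcendental
-/

set_option autoImplicit false

namespace Pool.Agent.Helper38.Trs2

open Complex _root_.Trs _root_.Trs.H40 Pool.Agent.Helper38.PiE

/-- the linear shape condition for `268` -/
theorem shape268 (P al EL La : ℝ) (hP : P ≠ 0) (hal : al ≠ 0) (hEL : EL ≠ 0)
    (γ : Fin 4 → Fin 5 → ℂ) (hγ : γ = ![![-1, 0, 0, I * P, 0], ![I * al, 0, 0, 0, I * P],
      ![0, 0, I * P, (P : ℂ) ^ 2, 0], ![0, -al, EL, 0, La]]) (w : Fin 3 → Fin 5 → ℂ)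
    (hw : w = ![![1, 0, -1, 0, 0], ![0, 1, 0, I, 0], ![0, 0, 0, al, -I]]) :
    Trs2.ShapeL (m := 4) (r := 3) ![false, false, true, true, true] γ w 59 41 17 58 := by
  intro ca cm lam mu hlam hmu hsl hsm h0
  have l2 : ∀ j, lam j 2 = 0 := fun j => hsl j 2 rfl
  have l3 : ∀ j, lam j 3 = 0 := fun j => hsl j 3 rfl
  have l4 : ∀ j, lam j 4 = 0 := fun j => hsl j 4 rfl
  have m0 : ∀ j, mu j 0 = 0 := fun j => hsm j 0 rfl
  have m1 : ∀ j, mu j 1 = 0 := fun j => hsm j 1 rfl
  have hls : ∀ j i, i ∉ ({0, 1} : Finset (Fin 5)) → lam j i = 0 := by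
    intro j i hi
    fin_cases i
    · simp at hi
    · simp at hi
    · exact l2 j
    · exact l3 j
    · exact l4 j
  have hms : ∀ j i, i ∉ ({2, 3, 4} : Finset (Fin 5)) → mu j i = 0 := by
    intro j i hi
    fin_cases i
    · exact m0 j
    · exact m1 j
    · simp at hi
    · simp at hi
    · simp at hi
  have hca : ca ≤ 2 := (card_le_of_supp {0, 1} lam hlam hls).trans (by decide)
  have hcm : cm ≤ 3 := (card_le_of_supp {2, 3, 4} mu hmu hms).trans (by decide)
  have halC : (al : ℂ) ≠ 0 := by exact_mod_cast hal
  have g0 : ∀ g : Fin 4 → ℤ, gp γ g 0 = -g 0 + I * (g 1 * al) := by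
    intro g; simp [gp, hγ, Fin.sum_univ_four]; ring
  have g1 : ∀ g : Fin 4 → ℤ, gp γ g 1 = -(g 3 * al) := by
    intro g; simp [gp, hγ, Fin.sum_univ_four]
  have r2 : ∀ g : Fin 4 → ℤ, (gp γ g 2).re = g 3 * EL := by
    intro g; simp [gp, hγ, Fin.sum_univ_four]
  have r3 : ∀ g : Fin 4 → ℤ, (gp γ g 3).re = g 2 * P ^ 2 := by
    intro g
    have : ((P : ℂ) ^ 2).re = P ^ 2 := by rw [← Complex.ofReal_pow, Complex.ofReal_re]
    simp [gp, hγ, Fin.sum_univ_four, this]
  have r4 : ∀ g : Fin 4 → ℤ, (gp γ g 4).re = g 3 * La := by
    intro g; simp [gp, hγ, Fin.sum_univ_four]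
  have hg0 : ∀ g : Fin 4 → ℤ, gp γ g 0 = 0 → g 0 = 0 ∧ g 1 = 0 := by
    intro g h
    rw [g0] at h
    have hre := congrArg Complex.re h
    have him := congrArg Complex.im h
    simp [hal] at hre him
    exact ⟨hre, him⟩
  have hg1 : ∀ g : Fin 4 → ℤ, gp γ g 1 = 0 → g 3 = 0 := by
    intro g h
    rw [g1] at h
    simpa [hal] using h
  have hR : ∀ (g : Fin 4 → ℤ) (j : Fin cm), Complex.exp (∑ i, (mu j i : ℂ) * gp γ g i) = 1 →
      (mu j 2 : ℝ) * (g 3 * EL) + mu j 3 * (g 2 * P ^ 2) + mu j 4 * (g 3 * La) = 0 := by
    intro g j h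
    have h1 := re_rel γ g (mu j) h
    rw [Fin.sum_univ_five, r2, r3, r4, m0, m1] at h1
    simpa using h1
  -- the rows
  have hXl : ∀ (x : Fin 3 → ℂ) (j : Fin ca), (∑ i, lam j i * (∑ k, x k * w k i) = 0) →
      ∑ k, (![lam j 0, lam j 1, 0] : Fin 3 → ℂ) k * x k = 0 := by
    intro x j h
    rw [Fin.sum_univ_five, l2, l3, l4] at h
    simp [hw, Fin.sum_univ_three] at h ⊢
    exact h
  have hXm : ∀ (x : Fin 3 → ℂ) (j : Fin cm), (∑ i, (mu j i : ℂ) * (∑ k, x k * w k i) = 0) →
      ∑ k, (![-(mu j 2 : ℂ), I * mu j 3, al * mu j 3 - I * mu j 4] : Fin 3 → ℂ) k * x k = 0 := by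
    intro x j h
    rw [Fin.sum_univ_five, m0, m1] at h
    simp [hw, Fin.sum_univ_three] at h ⊢
    linear_combination h
  have hI : ∀ a b : ℤ, (al : ℂ) * a - I * b = 0 → a = 0 ∧ b = 0 := by
    intro a b h
    have hre := congrArg Complex.re h
    have him := congrArg Complex.im h
    simp [hal] at hre him
    exact ⟨hre, him⟩
  -- independence of the rows of the characters
  have hmuC := ext_ind mu hmu
  have hrows : ∀ c : Fin cm → ℂ, (∀ k : Fin 3, ∑ j, c j *
      (![-(mu j 2 : ℂ), I * mu j 3, al * mu j 3 - I * mu j 4] : Fin 3 → ℂ) k = 0) → c = 0 := by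
    intro c hc
    have h0 := hc 0
    have h1 := hc 1
    have h2 := hc 2
    simp at h0 h1 h2
    have e2 : ∑ j, c j * (mu j 2 : ℂ) = 0 := h0
    have e3 : ∑ j, c j * (mu j 3 : ℂ) = 0 := by
      have : I * ∑ j, c j * (mu j 3 : ℂ) = 0 := by
        rw [Finset.mul_sum, ← h1]
        exact Finset.sum_congr rfl fun j _ => by ring
      exact (mul_eq_zero.1 this).resolve_left I_ne_zero
    have e4 : ∑ j, c j * (mu j 4 : ℂ) = 0 := by
      have : I * ∑ j, c j * (mu j 4 : ℂ) = 0 := by
        have h5 : (al : ℂ) * ∑ j, c j * (mu j 3 : ℂ) - I * ∑ j, c j * (mu j 4 : ℂ) = 0 := by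
          rw [Finset.mul_sum, Finset.mul_sum, ← Finset.sum_sub_distrib, ← h2]
          exact Finset.sum_congr rfl fun j _ => by ring
        rw [e3] at h5
        linear_combination -h5
      exact (mul_eq_zero.1 this).resolve_left I_ne_zero
    have := Fintype.linearIndependent_iff.1 hmuC c (by
      funext i
      simp only [Finset.sum_apply, Pi.smul_apply, smul_eq_mul, Pi.zero_apply]
      fin_cases i
      · simp [m0]
      · simp [m1]
      · exact e2
      · exact e3
      · exact e4)
    exact funext this
  have hrowsI : LinearIndependent ℂ (fun j : Fin cm =>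
      (![-(mu j 2 : ℂ), I * mu j 3, al * mu j 3 - I * mu j 4] : Fin 3 → ℂ)) := by
    rw [Fintype.linearIndependent_iff]
    intro c hc j
    have := hrows c (by
      intro k
      have := congrFun hc k
      simpa only [Finset.sum_apply, Pi.smul_apply, smul_eq_mul, Pi.zero_apply] using this)
    exact congrFun this j
  -- full rank for cm = 3
  have hfull : cm = 3 → ∀ g : Fin 4 → ℤ, (∀ j, Complex.exp (∑ i, (mu j i : ℂ) * gp γ g i) = 1) →
      g 2 = 0 ∧ g 3 = 0 := by
    intro hc g hg
    have h := full_rank {2, 3, 4} mu hmu hms (by rw [hc]; decide) (fun i => (gp γ g i).re)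
      (fun j => re_rel γ g (mu j) (hg j))
    have h2 := h 2 (by decide)
    have h3 := h 3 (by decide)
    simp only [r2, r3] at h2 h3
    constructor
    · simpa [hP] using h3
    · simpa [hEL] using h2
  have hfullX : cm = 3 → ∀ x : Fin 3 → ℂ, (∀ j, ∑ i, (mu j i : ℂ) * (∑ k, x k * w k i) = 0) →
      x = 0 := by
    intro hc x hx
    have h := full_rank {2, 3, 4} mu hmu hms (by rw [hc]; decide) (fun i => ∑ k, x k * w k i) hx
    have h1 := h 2 (by decide)
    have h2 := h 3 (by decide)
    have h3 := h 4 (by decide)
    simp [hw, Fin.sum_univ_three] at h1 h2 h3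
    rw [h3] at h2
    funext k
    fin_cases k
    · exact h1
    · simpa using h2
    · exact h3
  have hca' : ca = 0 ∨ ca = 1 ∨ ca = 2 := by omega
  rcases hca' with rfl | rfl | rfl
  · -- ca = 0
    obtain ⟨Cx, hCx, hx⟩ := exists_cols _ hrowsI
    refine ⟨∅, Cx, fun g hg _ _ => ne0 hg (by simp), fun x hx1 _ hx2 => hx x hx1
      (fun j => hXm x j (hx2 j)), ?_⟩
    rw [hCx]
    simp only [Finset.card_empty]
    omega
  · -- ca = 1
    have hl0 : lam 0 0 ≠ 0 ∨ lam 0 1 ≠ 0 := by
      obtain ⟨i, hi⟩ := one_ne hlam
      fin_cases i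
      · exact Or.inl hi
      · exact Or.inr hi
      · exact absurd (l2 0) hi
      · exact absurd (l3 0) hi
      · exact absurd (l4 0) hi
    have hL : ∀ g : Fin 4 → ℤ, (∀ j, ∑ i, lam j i * gp γ g i = 0) →
        lam 0 0 * (-g 0 + I * (g 1 * al)) - lam 0 1 * (g 3 * al) = 0 := by
      intro g h
      have h1 := h 0
      rw [Fin.sum_univ_five, l2, l3, l4, g0, g1] at h1
      linear_combination h1
    have hL01 : lam 0 0 ≠ 0 → ∀ g : Fin 4 → ℤ, (∀ j, ∑ i, lam j i * gp γ g i = 0) →
        lam 0 1 * (g 3 : ℂ) = 0 → g 0 = 0 ∧ g 1 = 0 := by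
      intro hl g h h3
      have h1 := hL g h
      have h2 : lam 0 0 * gp γ g 0 = 0 := by
        rw [g0]
        linear_combination h1 + al * h3
      exact hg0 g ((mul_eq_zero.1 h2).resolve_left hl)
    have hL3 : lam 0 0 = 0 → ∀ g : Fin 4 → ℤ, (∀ j, ∑ i, lam j i * gp γ g i = 0) →
        g 3 = 0 := by
      intro hl g h
      have h1 := hL g h
      have hl1 : lam 0 1 ≠ 0 := hl0.resolve_left (fun h => h hl)
      rw [hl] at h1
      simpa [hl1, hal] using h1
    have hcm' : cm = 0 ∨ cm = 1 ∨ cm = 2 ∨ cm = 3 := by omega
    rcases hcm' with rfl | rfl | rfl | rfl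
    · -- cm = 0
      by_cases hl : lam 0 0 = 0
      · have hl1 : lam 0 1 ≠ 0 := hl0.resolve_left (fun h => h hl)
        refine ⟨{3}, {1}, ?_, ?_, by decide⟩
        · intro g hg hg1 _
          refine ne0 hg ?_
          intro k hk
          rw [Finset.mem_singleton] at hk
          subst hk
          exact hL3 hl g hg1
        · intro x hx hx1 _
          have h1 := hXl x 0 (hx1 0)
          have x0 : x 0 = 0 := hx 0 (by decide)
          have x2 : x 2 = 0 := hx 2 (by decide)
          have x1 : x 1 = 0 := by
            simpa [Fin.sum_univ_three, hl, hl1] using h1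
          funext k
          fin_cases k
          · exact x0
          · exact x1
          · exact x2
      · refine ⟨{0}, {0}, ?_, ?_, by decide⟩
        · intro g hg hg1 _
          have g3 : g 3 = 0 := hg 3 (by decide)
          have h1 := hL01 hl g hg1 (by rw [g3]; simp)
          refine ne0 hg ?_
          intro k hk
          rw [Finset.mem_singleton] at hk
          subst hk
          exact h1.1
        · intro x hx hx1 _
          have h1 := hXl x 0 (hx1 0)
          have x1 : x 1 = 0 := hx 1 (by decide)
          have x2 : x 2 = 0 := hx 2 (by decide)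
          have x0 : x 0 = 0 := by
            simpa [Fin.sum_univ_three, hl, x1] using h1
          funext k
          fin_cases k
          · exact x0
          · exact x1
          · exact x2
    · -- cm = 1
      by_cases hB : LinearIndependent ℂ (![![lam 0 0, lam 0 1, 0],
          ![-(mu 0 2 : ℂ), I * mu 0 3, al * mu 0 3 - I * mu 0 4]] : Fin 2 → Fin 3 → ℂ)
      · obtain ⟨Cx, hCx, hx⟩ := exists_cols _ hB
        refine ⟨∅, Cx, fun g hg _ _ => ne0 hg (by simp), fun x hx1 hxl hxm => hx x hx1 ?_, ?_⟩
        · intro j
          fin_cases j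
          · exact hXl x 0 (hxl 0)
          · exact hXm x 0 (hxm 0)
        · rw [hCx]; decide
      · rw [LinearIndependent.pair_iff] at hB
        push Not at hB
        obtain ⟨s, t, hst, hne⟩ := hB
        have e0 := congrFun hst 0
        have e1 := congrFun hst 1
        have e2 := congrFun hst 2
        simp at e0 e1 e2
        have ht : t ≠ 0 := by
          intro ht
          by_cases hs0 : s = 0
          · exact hne hs0 ht
          · rw [ht] at e0 e1
            rcases hl0 with h | h
            · exact h (by simpa [hs0] using e0)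
            · exact h (by simpa [hs0] using e1)
        obtain ⟨a3, a4⟩ := hI _ _ (e2.resolve_left ht)
        have a2 : mu 0 2 ≠ 0 := by
          intro h
          obtain ⟨i, hi⟩ := one_ne hmu
          apply hi
          fin_cases i
          · exact m0 0
          · exact m1 0
          · exact h
          · exact a3
          · exact a4
        have hs : s ≠ 0 := by
          intro hs
          rw [hs] at e0
          have : (mu 0 2 : ℂ) ≠ 0 := by exact_mod_cast a2
          simp [ht, this] at e0
        have b1 : lam 0 1 = 0 := by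
          rw [a3] at e1
          simpa [hs] using e1
        have b0 : lam 0 0 ≠ 0 := hl0.resolve_right (fun h => h b1)
        refine ⟨{0, 1, 3}, {0}, ?_, ?_, by decide⟩
        · intro g hg hg1 hg2
          have h1 := hL01 b0 g hg1 (by rw [b1]; simp)
          have h2 := hR g 0 (hg2 0)
          rw [a3, a4] at h2
          have a2' : (mu 0 2 : ℝ) ≠ 0 := by exact_mod_cast a2
          have h3 : g 3 = 0 := by simpa [a2', hEL] using h2
          refine ne0 hg ?_
          intro k hk
          simp only [Finset.mem_insert, Finset.mem_singleton] at hk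
          rcases hk with rfl | rfl | rfl
          · exact h1.1
          · exact h1.2
          · exact h3
        · intro x hx hx1 _
          have h1 := hXl x 0 (hx1 0)
          have x1 : x 1 = 0 := hx 1 (by decide)
          have x2 : x 2 = 0 := hx 2 (by decide)
          have x0 : x 0 = 0 := by
            simpa [Fin.sum_univ_three, b0, x1] using h1
          funext k
          fin_cases k
          · exact x0
          · exact x1
          · exact x2
    · -- cm = 2
      by_cases hB : LinearIndependent ℂ (![![lam 0 0, lam 0 1, 0],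
          ![-(mu 0 2 : ℂ), I * mu 0 3, al * mu 0 3 - I * mu 0 4],
          ![-(mu 1 2 : ℂ), I * mu 1 3, al * mu 1 3 - I * mu 1 4]] : Fin 3 → Fin 3 → ℂ)
      · obtain ⟨Cx, hCx, hx⟩ := exists_cols _ hB
        refine ⟨∅, Cx, fun g hg _ _ => ne0 hg (by simp), fun x hx1 hxl hxm => hx x hx1 ?_, ?_⟩
        · intro j
          fin_cases j
          · exact hXl x 0 (hxl 0)
          · exact hXm x 0 (hxm 0)
          · exact hXm x 1 (hxm 1)
        · rw [hCx]; decide
      · obtain ⟨Cx, hCx, hx⟩ := exists_cols _ hrowsI
        by_cases hl : lam 0 0 = 0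
        · have hl1 : lam 0 1 ≠ 0 := hl0.resolve_left (fun h => h hl)
          -- the characters are trivial on the first coordinate
          have hM : mu 0 2 = 0 ∧ mu 1 2 = 0 := by
            rw [Fintype.linearIndependent_iff] at hB
            push Not at hB
            obtain ⟨c, hc, i0, hi0⟩ := hB
            rw [Fin.sum_univ_three] at hc
            have e0 := congrFun hc 0
            have e1 := congrFun hc 1
            have e2 := congrFun hc 2
            simp [hl] at e0 e1 e2
            have hc0 : c 0 ≠ 0 := by
              intro h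
              have := hrows ![c 1, c 2] (by
                intro k
                rw [Fin.sum_univ_two]
                fin_cases k
                · simpa using e0
                · simpa [h] using e1
                · simpa using e2)
              have f1 := congrFun this 0
              have f2 := congrFun this 1
              simp at f1 f2
              apply hi0
              fin_cases i0
              · exact h
              · exact f1
              · exact f2
            by_contra hcon
            -- the integer vector u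
            have hdet : ∃ q : ℂ, c 1 = q * mu 1 2 ∧ c 2 = -(q * mu 0 2) := by
              by_cases h12 : mu 1 2 = 0
              · have h02 : mu 0 2 ≠ 0 := fun h => hcon ⟨h, h12⟩
                have h02' : (mu 0 2 : ℂ) ≠ 0 := by exact_mod_cast h02
                refine ⟨-(c 2) / mu 0 2, ?_, ?_⟩
                · have : c 1 * (mu 0 2 : ℂ) = 0 := by
                    rw [h12] at e0
                    simp only [Int.cast_zero, neg_zero, mul_zero, add_zero] at e0
                    linear_combination -e0
                  rw [(mul_eq_zero.1 this).resolve_right h02', h12]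
                  simp
                · field_simp
              · have h12' : (mu 1 2 : ℂ) ≠ 0 := by exact_mod_cast h12
                refine ⟨c 1 / mu 1 2, ?_, ?_⟩
                · field_simp
                · field_simp
                  linear_combination -e0
            obtain ⟨q, hq1, hq2⟩ := hdet
            rw [hq1, hq2] at e1 e2
            have hq : q ≠ 0 := by
              intro h
              rw [h] at e1
              simp [hc0, hl1] at e1
            have e2' : q * ((al : ℂ) * ((mu 1 2 * mu 0 3 - mu 0 2 * mu 1 3 : ℤ) : ℂ) -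
                I * ((mu 1 2 * mu 0 4 - mu 0 2 * mu 1 4 : ℤ) : ℂ)) = 0 := by
              push_cast
              linear_combination e2
            obtain ⟨u3, -⟩ := hI _ _ ((mul_eq_zero.1 e2').resolve_left hq)
            have u3' : (mu 1 2 : ℂ) * mu 0 3 - mu 0 2 * mu 1 3 = 0 := by exact_mod_cast u3
            have : c 0 * lam 0 1 = 0 := by
              linear_combination e1 - q * I * u3'
            rcases mul_eq_zero.1 this with h | h
            · exact hc0 h
            · exact hl1 h
          refine ⟨{2, 3}, Cx, ?_, fun x hx1 _ hxm => hx x hx1 (fun j => hXm x j (hxm j)), ?_⟩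
          · intro g hg hg1 hg2
            have g3 := hL3 hl g hg1
            have hms2 : ∀ (j : Fin 2) i, i ∉ ({3, 4} : Finset (Fin 5)) → mu j i = 0 := by
              intro j i hi
              fin_cases i
              · exact m0 j
              · exact m1 j
              · fin_cases j
                · exact hM.1
                · exact hM.2
              · simp at hi
              · simp at hi
            have h := full_rank (K := ℝ) {3, 4} mu hmu hms2 (by decide)
              (fun i => (gp γ g i).re) (fun j => re_rel γ g (mu j) (hg2 j))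
            have h3 := h 3 (by decide)
            simp only [r3] at h3
            refine ne0 hg ?_
            intro k hk
            simp only [Finset.mem_insert, Finset.mem_singleton] at hk
            rcases hk with rfl | rfl
            · simpa [hP] using h3
            · exact g3
          · rw [hCx]; decide
        · refine ⟨{0, 1}, Cx, ?_, fun x hx1 _ hxm => hx x hx1 (fun j => hXm x j (hxm j)), ?_⟩
          · intro g hg hg1 _
            have g3 : g 3 = 0 := hg 3 (by decide)
            have h1 := hL01 hl g hg1 (by rw [g3]; simp)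
            refine ne0 hg ?_
            intro k hk
            simp only [Finset.mem_insert, Finset.mem_singleton] at hk
            rcases hk with rfl | rfl
            · exact h1.1
            · exact h1.2
          · rw [hCx]; decide
    · -- cm = 3
      refine ⟨{2}, Finset.univ, ?_, fun x _ _ hx2 => hfullX rfl x hx2, by decide⟩
      intro g hg _ hg2
      refine ne0 hg ?_
      intro k hk
      rw [Finset.mem_singleton] at hk
      subst hk
      exact (hfull rfl g hg2).1
  · -- ca = 2
    have hlamI := Fintype.linearIndependent_iff.1 hlam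
    -- determinant of lam
    have hdet : lam 0 0 * lam 1 1 - lam 0 1 * lam 1 0 ≠ 0 := by
      intro hD
      have t1 : ∀ a b : ℂ, a * lam 0 0 + b * lam 1 0 = 0 → a * lam 0 1 + b * lam 1 1 = 0 →
          a = 0 ∧ b = 0 := by
        intro a b h1 h2
        have := hlamI ![a, b] (by
          funext i
          rw [Fin.sum_univ_two]
          fin_cases i
          · simpa using h1
          · simpa using h2
          · simp [l2]
          · simp [l3]
          · simp [l4])
        exact ⟨by simpa using this 0, by simpa using this 1⟩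
      have t2 := t1 (lam 1 1) (-lam 0 1) (by linear_combination hD) (by ring)
      have t3 := t1 (lam 1 0) (-lam 0 0) (by ring) (by linear_combination -hD)
      have t4 := t1 1 0 (by linear_combination -t3.2) (by linear_combination -t2.2)
      simp at t4
    have hL : ∀ g : Fin 4 → ℤ, (∀ j, ∑ i, lam j i * gp γ g i = 0) →
        g 0 = 0 ∧ g 1 = 0 ∧ g 3 = 0 := by
      intro g h
      have h1 := h 0
      have h2 := h 1
      rw [Fin.sum_univ_five, l2, l3, l4] at h1 h2
      have e0 : gp γ g 0 = 0 := by
        have : (lam 0 0 * lam 1 1 - lam 0 1 * lam 1 0) * gp γ g 0 = 0 := by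
          linear_combination lam 1 1 * h1 - lam 0 1 * h2
        exact (mul_eq_zero.1 this).resolve_left hdet
      have e1 : gp γ g 1 = 0 := by
        have : (lam 0 0 * lam 1 1 - lam 0 1 * lam 1 0) * gp γ g 1 = 0 := by
          linear_combination lam 0 0 * h2 - lam 1 0 * h1
        exact (mul_eq_zero.1 this).resolve_left hdet
      have h3 := hg0 g e0
      exact ⟨h3.1, h3.2, hg1 g e1⟩
    have hX01 : ∀ x : Fin 3 → ℂ, (∀ j, ∑ i, lam j i * (∑ k, x k * w k i) = 0) →
        x 0 = 0 ∧ x 1 = 0 := by
      intro x h
      have h1 := hXl x 0 (h 0)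
      have h2 := hXl x 1 (h 1)
      simp [Fin.sum_univ_three] at h1 h2
      constructor
      · have : (lam 0 0 * lam 1 1 - lam 0 1 * lam 1 0) * x 0 = 0 := by
          linear_combination lam 1 1 * h1 - lam 0 1 * h2
        exact (mul_eq_zero.1 this).resolve_left hdet
      · have : (lam 0 0 * lam 1 1 - lam 0 1 * lam 1 0) * x 1 = 0 := by
          linear_combination lam 0 0 * h2 - lam 1 0 * h1
        exact (mul_eq_zero.1 this).resolve_left hdet
    have hfr : ∀ g : Fin 4 → ℤ, (∀ k, k ∉ ({0, 1, 3} : Finset (Fin 4)) → g k = 0) →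
        (∀ j, ∑ i, lam j i * gp γ g i = 0) → g = 0 := by
      intro g hg hg1
      have h1 := hL g hg1
      refine ne0 hg ?_
      intro k hk
      simp only [Finset.mem_insert, Finset.mem_singleton] at hk
      rcases hk with rfl | rfl | rfl
      · exact h1.1
      · exact h1.2.1
      · exact h1.2.2
    have hcm' : cm = 0 ∨ cm = 1 ∨ cm = 2 ∨ cm = 3 := by omega
    have hsmall : ∀ x : Fin 3 → ℂ, (∀ k, k ∉ ({0, 1} : Finset (Fin 3)) → x k = 0) →
        (∀ j, ∑ i, lam j i * (∑ k, x k * w k i) = 0) → x = 0 := by
      intro x hx hx1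
      have h1 := hX01 x hx1
      have x2 : x 2 = 0 := hx 2 (by decide)
      funext k
      fin_cases k
      · exact h1.1
      · exact h1.2
      · exact x2
    rcases hcm' with rfl | rfl | rfl | rfl
    · exact ⟨{0, 1, 3}, {0, 1}, fun g hg hg1 _ => hfr g hg hg1,
        fun x hx hx1 _ => hsmall x hx hx1, by decide⟩
    · exact ⟨{0, 1, 3}, {0, 1}, fun g hg hg1 _ => hfr g hg hg1,
        fun x hx hx1 _ => hsmall x hx hx1, by decide⟩
    · -- cm = 2
      obtain ⟨j, hj⟩ : ∃ j : Fin 2, ¬ (mu j 3 = 0 ∧ mu j 4 = 0) := by
        by_contra hcon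
        push Not at hcon
        have a := hcon 0
        have b := hcon 1
        have key := pair_ind hmu (mu 1 2) (-mu 0 2) (by
          intro i
          fin_cases i
          · simp [m0]
          · simp [m1]
          · simp; ring
          · simp [a.1, b.1]
          · simp [a.2, b.2])
        have key2 := pair_ind hmu 1 0 (by
          intro i
          fin_cases i
          · simp [m0]
          · simp [m1]
          · simpa using key.2
          · simp [a.1]
          · simp [a.2])
        simp at key2
      refine ⟨{0, 1, 3}, Finset.univ, fun g hg hg1 _ => hfr g hg hg1, ?_, by decide⟩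
      intro x hx hx1 hx2
      have h1 := hX01 x hx1
      have h2 := hXm x j (hx2 j)
      simp [Fin.sum_univ_three, h1.1, h1.2] at h2
      have x2 : x 2 = 0 := by
        by_contra hne
        exact hj (hI _ _ (h2.resolve_right hne))
      funext k
      fin_cases k
      · exact h1.1
      · exact h1.2
      · exact x2
    · -- cm = 3
      refine ⟨Finset.univ, Finset.univ, ?_, fun x _ _ hx2 => hfullX rfl x hx2, by decide⟩
      intro g _ hg1 hg2
      have h1 := hL g hg1
      have h2 := hfull rfl g hg2
      funext k
      fin_cases k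
      · exact h1.1
      · exact h1.2.1
      · exact h2.1
      · exact h1.2.2

/-- **268**: one of `πe, π^e, e^(π²)` is transcendental. -/
theorem st_268 (hM : Trs2.S_Main) : Trs2.S_268 := by
  by_contra hcon
  have h := not_some hcon
  have h2 := pie (h := h 2 (by simp))
  have h6 := pie' (h := h 6 (by simp))
  have h8 := epi2 (h := h 8 (by simp))
  have h2' := exp_pie (h := h 2 (by simp))
  have hl := logpi_pos
  have hE := Real.exp_pos 1
  refine hM 5 4 3 ![false, false, true, true, true]
    ![![-1, 0, 0, I * (Real.pi : ℂ), 0],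
      ![I * ((Real.pi * Real.exp 1 : ℝ) : ℂ), 0, 0, 0, I * (Real.pi : ℂ)],
      ![0, 0, I * (Real.pi : ℂ), (Real.pi : ℂ) ^ 2, 0],
      ![0, -((Real.pi * Real.exp 1 : ℝ) : ℂ), ((Real.log Real.pi * Real.exp 1 : ℝ) : ℂ), 0,
        ((Real.log Real.pi + 1 : ℝ) : ℂ)]]
    ![![1, 0, -1, 0, 0], ![0, 1, 0, I, 0], ![0, 0, 0, ((Real.pi * Real.exp 1 : ℝ) : ℂ), -I]]
    ![-(Real.pi : ℂ), 1, -(Real.pi : ℂ), I, ((Real.pi * Real.exp 1 : ℝ) : ℂ)]
    ?_ ?_ ?_ ?_ ?_ 60 59 41 17 58
    (by norm_num) (by norm_num) (by norm_num) (by decide)
    (shape268 Real.pi (Real.pi * Real.exp 1) (Real.log Real.pi * Real.exp 1)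
      (Real.log Real.pi + 1) Real.pi_ne_zero (mul_ne_zero Real.pi_ne_zero hE.ne')
      (mul_ne_zero hl.ne' hE.ne') _ rfl _ rfl)
  · intro h
    have := congrFun h 1
    simp at this
  · intro k
    fin_cases k
    · simp [Fin.sum_univ_five]
      linear_combination (Real.pi : ℂ) * I_sq
    · simp [Fin.sum_univ_five]; ring
    · simp [Fin.sum_univ_five]; ring
    · simp [Fin.sum_univ_five]; ring
  · intro k
    fin_cases k <;> simp [Fin.sum_univ_five]
    ring
  · intro k i
    have hi := alg_I
    have hpi := exp_I_pi_alg
    have hz : IsAlgebraic ℚ (0 : ℂ) := isAlgebraic_zero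
    have ho : IsAlgebraic ℚ (1 : ℂ) := isAlgebraic_one
    have hn := alg_neg_one
    have hal : IsAlgebraic ℚ ((Real.pi * Real.exp 1 : ℝ) : ℂ) := by
      rw [Complex.ofReal_mul]
      exact h2
    fin_cases k <;> fin_cases i
    · simpa using hn
    · simpa using hz
    · simpa using ho
    · simpa using hpi
    · simpa using ho
    · exact hi.mul hal
    · simpa using hz
    · simpa using ho
    · simpa using ho
    · simpa using hpi
    · simpa using hz
    · simpa using hz
    · simpa using hpi
    · simpa using h8
    · simpa using ho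
    · simpa using hz
    · exact hal.neg
    · simpa using h6
    · simpa using ho
    · simpa using h2'
  · intro k i
    have hi : IsAlgebraic ℚ I := alg_I
    have hi' : IsAlgebraic ℚ (-I) := alg_I.neg
    have hz : IsAlgebraic ℚ (0 : ℂ) := isAlgebraic_zero
    have ho : IsAlgebraic ℚ (1 : ℂ) := isAlgebraic_one
    have hn := alg_neg_one
    have hal : IsAlgebraic ℚ ((Real.pi * Real.exp 1 : ℝ) : ℂ) := by
      rw [Complex.ofReal_mul]
      exact h2
    fin_cases k <;> fin_cases i
    · simpa using ho
    · simpa using hz
    · simpa using hn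
    · simpa using hz
    · simpa using hz
    · simpa using hz
    · simpa using ho
    · simpa using hz
    · simpa using hi
    · simpa using hz
    · simpa using hz
    · simpa using hz
    · simpa using hz
    · exact hal
    · simpa using hi'

end Pool.Agent.Helper38.Trs2
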