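import Pool.Agent.Helper38.Trs2.I248

/-!
# Project `trs2`: one of `π/e, π^π, e^(π²)` is transcendental
-/

set_option autoImplicit false

namespace Pool.Agent.Helper38.Trs2

open Complex _root_.Trs _root_.Trs.H40 Pool.Agent.Helper38.PiE

theorem logpi_gt : 1 < Real.log Real.pi := by
  rw [Real.lt_log_iff_exp_lt Real.pi_pos]
  have h1 := Real.exp_one_lt_d9
  have h2 := Real.pi_gt_three
  linarith

theorem exp_one_sub {h : IsAlgebraic ℚ (nine 3)} :
    IsAlgebraic ℚ (exp (1 - (Real.log Real.pi : ℂ))) := by
  have h31 : nine 3 = Real.pi / Real.exp 1 := by simp [nine]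
  rw [h31] at h
  have h4 := alg_ofReal h
  have h5 : exp (1 - (Real.log Real.pi : ℂ)) = (((Real.pi / Real.exp 1 : ℝ) : ℂ))⁻¹ := by
    rw [Complex.exp_sub, ← Complex.ofReal_exp, Real.exp_log Real.pi_pos, Complex.ofReal_div,
      Complex.ofReal_exp, Complex.ofReal_one, inv_div]
  rw [h5]
  exact h4.inv

/-- **348**: one of `π/e, π^π, e^(π²)` is transcendental. -/
theorem st_348 (hM : Trs2.S_Main) : SomeT {3, 4, 8} := by
  by_contra hcon
  have h := not_some hcon
  have h4 := pipi (h := h 4 (by simp))
  have h8 := epi2 (h := h 8 (by simp))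
  have h3' := exp_one_sub (h := h 3 (by simp))
  have hl := logpi_pos
  have hl1 := logpi_gt
  have h4' : IsAlgebraic ℚ (exp (-((Real.log Real.pi : ℂ) * (Real.pi : ℂ)))) := by
    rw [Complex.exp_neg]
    exact h4.inv
  refine hM 4 4 2 ![false, true, true, true]
    ![![-1, 0, I * (Real.pi : ℂ), 0], ![I, 0, 0, I * (Real.pi : ℂ)],
      ![0, I * (Real.pi : ℂ), (Real.pi : ℂ) ^ 2, 0],
      ![-1, ((1 - Real.log Real.pi : ℝ) : ℂ), 0, ((-(Real.log Real.pi * Real.pi) : ℝ) : ℂ)]]
    ![![1, -1, 0, 0], ![0, 0, 1, -I]]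
    ![-(Real.pi : ℂ), -(Real.pi : ℂ), I, 1] ?_ ?_ ?_ ?_ ?_ 60 59 41 17 58
    (by norm_num) (by norm_num) (by norm_num) (by decide)
    (shape248 Real.pi (1 - Real.log Real.pi) (-(Real.log Real.pi * Real.pi)) Real.pi_ne_zero
      (by linarith) (neg_ne_zero.2 (mul_ne_zero hl.ne' Real.pi_ne_zero)) _ rfl _ rfl)
  · intro h
    have := congrFun h 3
    simp at this
  · intro k
    fin_cases k
    · simp [Fin.sum_univ_four]
      linear_combination (Real.pi : ℂ) * I_sq
    · simp [Fin.sum_univ_four]; ring
    · simp [Fin.sum_univ_four]; ring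
    · simp [Fin.sum_univ_four]; ring
  · intro k
    fin_cases k <;> simp [Fin.sum_univ_four]
  · intro k i
    have hi := alg_I
    have hpi := exp_I_pi_alg
    have hz : IsAlgebraic ℚ (0 : ℂ) := isAlgebraic_zero
    have ho : IsAlgebraic ℚ (1 : ℂ) := isAlgebraic_one
    have hn := alg_neg_one
    fin_cases k <;> fin_cases i
    · simpa using hn
    · simpa using ho
    · simpa using hpi
    · simpa using ho
    · simpa using hi
    · simpa using ho
    · simpa using ho
    · simpa using hpi
    · simpa using hz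
    · simpa using hpi
    · simpa using h8
    · simpa using ho
    · simpa using hn
    · simpa using h3'
    · simpa using ho
    · simpa using h4'
  · intro k i
    have hi : IsAlgebraic ℚ (-I) := alg_I.neg
    have hz : IsAlgebraic ℚ (0 : ℂ) := isAlgebraic_zero
    have ho : IsAlgebraic ℚ (1 : ℂ) := isAlgebraic_one
    have hn := alg_neg_one
    fin_cases k <;> fin_cases i
    · simpa using ho
    · simpa using hn
    · simpa using hz
    · simpa using hz
    · simpa using hz
    · simpa using hz
    · simpa using ho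
    · simpa using hi

end Pool.Agent.Helper38.Trs2
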