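import Pool.Agent.Helper38.Trs2.Sh678

/-!
# Project `trs2`: one of `π + e, π^e, π^√2, e^(π²)` is transcendental; the same for `π - e`
-/

set_option autoImplicit false

namespace Pool.Agent.Helper38.Trs2

open Complex _root_.Trs _root_.Trs.H40 Pool.Agent.Helper38.PiE

theorem exp_rat (q : ℚ) {z : ℂ} (h : IsAlgebraic ℚ (exp z)) : IsAlgebraic ℚ (exp (q * z)) := by
  have hd : 0 < q.den := q.pos
  apply IsAlgebraic.of_pow hd
  rw [← Complex.exp_nat_mul]
  have h1 : (q.den : ℂ) * (q * z) = (q.num : ℂ) * z := by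
    have : (q.den : ℂ) * (q : ℂ) = (q.num : ℂ) := by
      have := Rat.den_mul_eq_num q
      exact_mod_cast this
    rw [← mul_assoc, this]
  rw [h1]
  have h2 : exp ((q.num : ℂ) * z) = (exp z) ^ q.num := by
    rw [Complex.exp_int_mul]
  rw [h2]
  rcases Int.eq_nat_or_neg q.num with ⟨n, hn | hn⟩
  · rw [hn, zpow_natCast]
    exact h.pow n
  · rw [hn, zpow_neg, zpow_natCast]
    exact (h.pow n).inv

theorem core678 (hM : Trs2.S_Main) (hB : S_B) (s : ℝ) (hs : s = 1 ∨ s = -1)
    (ha : IsAlgebraic ℚ ((Real.pi + s * Real.exp 1 : ℝ) : ℂ)) (h6 : IsAlgebraic ℚ (nine 6))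
    (h7 : IsAlgebraic ℚ (nine 7)) (h8 : IsAlgebraic ℚ (nine 8)) : False := by
  have h6' := pie' (h := h6)
  have h7' := pis (h := h7)
  have h8' := epi2 (h := h8)
  have h6s : IsAlgebraic ℚ (exp ((s * (Real.log Real.pi * Real.exp 1) : ℝ) : ℂ)) := by
    have h61 : IsAlgebraic ℚ (exp ((Real.log Real.pi * Real.exp 1 : ℝ) : ℂ)) := by
      rw [Complex.ofReal_mul]; exact h6'
    rcases hs with rfl | rfl
    · rw [one_mul]; exact h61
    · rw [neg_one_mul, Complex.ofReal_neg, Complex.exp_neg]
      exact h61.inv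
  have h7s : IsAlgebraic ℚ (exp ((Real.log Real.pi * Real.sqrt 2 : ℝ) : ℂ)) := by
    rw [Complex.ofReal_mul]; exact h7'
  have hl := logpi_pos
  have hr2 : Real.sqrt 2 ≠ 0 := by positivity
  by_cases hir : ∀ a b : ℚ, (a : ℝ) * (Real.pi + s * Real.exp 1) + b * Real.sqrt 2 = 0 →
      a = 0 ∧ b = 0
  · refine hM 5 5 3 ![false, true, true, true, true]
      ![![-1, 0, I * (Real.pi : ℂ), 0, 0],
        ![I * ((Real.pi + s * Real.exp 1 : ℝ) : ℂ), 0, 0, I * (Real.pi : ℂ), 0],
        ![I * ((Real.sqrt 2 : ℝ) : ℂ), 0, 0, 0, I * (Real.pi : ℂ)],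
        ![0, I * (Real.pi : ℂ), (Real.pi : ℂ) ^ 2, 0, 0],
        ![0, ((Real.log Real.pi * Real.sqrt 2 : ℝ) : ℂ), 0,
          ((Real.log Real.pi * Real.sqrt 2 : ℝ) : ℂ),
          ((-(s * (Real.log Real.pi * Real.exp 1)) : ℝ) : ℂ)]]
      ![![1, -1, 0, 0, 0], ![0, 0, ((Real.pi + s * Real.exp 1 : ℝ) : ℂ), -I, 0],
        ![0, 0, ((Real.sqrt 2 : ℝ) : ℂ), 0, -I]]
      ![(Real.pi : ℂ), (Real.pi : ℂ), -I, -((Real.pi + s * Real.exp 1 : ℝ) : ℂ),
        -((Real.sqrt 2 : ℝ) : ℂ)] ?_ ?_ ?_ ?_ ?_ 200 199 151 47 198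
      (by norm_num) (by norm_num) (by norm_num) (by decide)
      (shape678 Real.pi (Real.pi + s * Real.exp 1) (Real.sqrt 2) (Real.log Real.pi * Real.sqrt 2)
        (-(s * (Real.log Real.pi * Real.exp 1))) Real.pi_ne_zero
        (mul_ne_zero hl.ne' hr2) hir _ rfl _ rfl)
    · intro h
      have := congrFun h 2
      simp at this
    · intro k
      fin_cases k
      · simp [Fin.sum_univ_five]
        linear_combination -(Real.pi : ℂ) * I_sq
      · simp [Fin.sum_univ_five]; ring
      · simp [Fin.sum_univ_five]; ring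
      · simp [Fin.sum_univ_five]; ring
      · simp [Fin.sum_univ_five]; ring
    · intro k
      fin_cases k
      · simp [Fin.sum_univ_five]
      · simp [Fin.sum_univ_five]; ring
      · simp [Fin.sum_univ_five]; ring
    · intro k i
      have hi := alg_I
      have hpi := exp_I_pi_alg
      have hz : IsAlgebraic ℚ (0 : ℂ) := isAlgebraic_zero
      have ho : IsAlgebraic ℚ (1 : ℂ) := isAlgebraic_one
      have hn := alg_neg_one
      fin_cases k <;> fin_cases i
      · simpa using hn
      · simpa using ho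
      · simpa using hpi
      · simpa using ho
      · simpa using ho
      · exact hi.mul ha
      · simpa using ho
      · simpa using ho
      · simpa using hpi
      · simpa using ho
      · exact hi.mul alg_sqrt2
      · simpa using ho
      · simpa using ho
      · simpa using ho
      · simpa using hpi
      · simpa using hz
      · simpa using hpi
      · simpa using h8'
      · simpa using ho
      · simpa using ho
      · simpa using hz
      · exact h7s
      · simpa using ho
      · exact h7s
      · show IsAlgebraic ℚ (exp ((-(s * (Real.log Real.pi * Real.exp 1)) : ℝ) : ℂ))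
        rw [Complex.ofReal_neg, Complex.exp_neg]
        exact h6s.inv
    · intro k i
      have hi : IsAlgebraic ℚ (-I) := alg_I.neg
      have hz : IsAlgebraic ℚ (0 : ℂ) := isAlgebraic_zero
      have ho : IsAlgebraic ℚ (1 : ℂ) := isAlgebraic_one
      have hn := alg_neg_one
      fin_cases k <;> fin_cases i
      · simpa using ho
      · simpa using hn
      · simpa using hz
      · simpa using hz
      · simpa using hz
      · simpa using hz
      · simpa using hz
      · exact ha
      · simpa using hi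
      · simpa using hz
      · simpa using hz
      · simpa using hz
      · exact alg_sqrt2
      · simpa using hz
      · simpa using hi
  · push Not at hir
    obtain ⟨a, b, hab, hne⟩ := hir
    have ha0 : a ≠ 0 := by
      intro h
      rw [h] at hab
      have : b = 0 := by simpa using hab
      exact hne h this
    have ha0' : (a : ℝ) ≠ 0 := by exact_mod_cast ha0
    have hq : Real.pi + s * Real.exp 1 = ((-b / a : ℚ) : ℝ) * Real.sqrt 2 := by
      push_cast
      field_simp
      linarith
    -- `π^π` is algebraic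
    have h4 : IsAlgebraic ℚ (exp (((Real.log Real.pi * Real.pi : ℝ)) : ℂ)) := by
      have e1 : Real.log Real.pi * Real.pi = ((-b / a : ℚ) : ℝ) *
          (Real.log Real.pi * Real.sqrt 2) + -(s * (Real.log Real.pi * Real.exp 1)) := by
        linear_combination (Real.log Real.pi) * hq
      rw [e1, Complex.ofReal_add, Complex.exp_add]
      apply IsAlgebraic.mul
      · rw [Complex.ofReal_mul, Complex.ofReal_ratCast]
        exact exp_rat _ h7s
      · rw [Complex.ofReal_neg, Complex.exp_neg]
        exact h6s.inv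
    have h4' : IsAlgebraic ℚ (nine 4) := by
      have h1 : nine 4 = Real.pi ^ Real.pi := by simp [nine]
      rw [h1]
      rw [← Complex.ofReal_exp] at h4
      rw [Real.rpow_def_of_pos Real.pi_pos]
      have := (isAlgebraic_algebraMap_iff (R := ℚ) (A := ℂ)
        (a := Real.exp (Real.log Real.pi * Real.pi)) (algebraMap ℝ ℂ).injective).1 (by simpa using h4)
      exact this
    obtain ⟨i, hi, hit⟩ := hB
    simp only [Finset.mem_insert, Finset.mem_singleton] at hi
    rcases hi with rfl | rfl | rfl
    · exact hit h4'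
    · exact hit h7
    · exact hit h8

theorem st_0678 (hM : Trs2.S_Main) (hB : S_B) : SomeT {0, 6, 7, 8} := by
  by_contra hcon
  have h := not_some hcon
  refine core678 hM hB 1 (Or.inl rfl) ?_ (h 6 (by simp)) (h 7 (by simp)) (h 8 (by simp))
  have h0 := h 0 (by simp)
  have h1 : nine 0 = Real.pi + 1 * Real.exp 1 := by simp [nine]
  rw [h1] at h0
  exact alg_ofReal h0

theorem st_1678 (hM : Trs2.S_Main) (hB : S_B) : SomeT {1, 6, 7, 8} := by
  by_contra hcon
  have h := not_some hcon
  refine core678 hM hB (-1) (Or.inr rfl) ?_ (h 6 (by simp)) (h 7 (by simp)) (h 8 (by simp))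
  have h0 := h 1 (by simp)
  have h1 : nine 1 = Real.pi + -1 * Real.exp 1 := by simp [nine]; ring
  rw [h1] at h0
  exact alg_ofReal h0

end Pool.Agent.Helper38.Trs2
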