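import Pool.Agent.Helper17.Trs2.Defs

/-!
# Linear algebra for the shape conditions of the project `trs2`
-/

set_option autoImplicit false

namespace Pool.Agent.Helper38.Trs2

open Matrix

/-- there are at most as many independent vectors as coordinates in the support -/
theorem card_le_of_supp {R : Type} [CommRing R] [Nontrivial R] {n c : ℕ} (T : Finset (Fin n))
    (v : Fin c → Fin n → R) (hind : LinearIndependent R v) (hs : ∀ j i, i ∉ T → v j i = 0) :
    c ≤ T.card := by
  classical
  have h1 : LinearIndependent R (fun (j : Fin c) (i : T) => v j i) := by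
    rw [Fintype.linearIndependent_iff] at hind ⊢
    intro g hg
    apply hind g
    funext i
    by_cases hi : i ∈ T
    · have := congrFun hg ⟨i, hi⟩
      simpa [Finset.sum_apply] using this
    · simp [Finset.sum_apply, hs _ _ hi]
  have h2 := h1.fintype_card_le_finrank
  simpa using h2

/-- a square system of independent integer vectors has no real or complex solutions -/
theorem full_rank {K : Type} [Field K] [CharZero K] {n c : ℕ} (T : Finset (Fin n))
    (mu : Fin c → Fin n → ℤ) (hind : LinearIndependent ℤ mu) (hs : ∀ j i, i ∉ T → mu j i = 0)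
    (hc : c = T.card) (v : Fin n → K) (hv : ∀ j, ∑ i, (mu j i : K) * v i = 0) :
    ∀ i ∈ T, v i = 0 := by
  classical
  have e : T ≃ Fin c := Fintype.equivOfCardEq (by simp [hc])
  let M : Matrix T T ℤ := fun a b => mu (e a) b
  have hdet : M.det ≠ 0 := by
    intro h0
    obtain ⟨w, hw, hwM⟩ := Matrix.exists_vecMul_eq_zero_iff.2 h0
    apply hw
    rw [Fintype.linearIndependent_iff] at hind
    have h1 := hind (fun j => w (e.symm j)) (by
      funext i
      by_cases hi : i ∈ T
      · have h2 := congrFun hwM ⟨i, hi⟩
        simp only [Matrix.vecMul, dotProduct, Pi.zero_apply] at h2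
        simp only [Finset.sum_apply, Pi.smul_apply, smul_eq_mul, Pi.zero_apply]
        rw [← h2]
        refine (Fintype.sum_equiv e _ _ ?_).symm
        intro x
        simp [M]
      · simp [Finset.sum_apply, hs _ _ hi])
    funext a
    have := h1 (e a)
    simpa using this
  have hdet' : (M.map (Int.castRingHom K)).det ≠ 0 := by
    rw [← RingHom.mapMatrix_apply, ← RingHom.map_det]
    simpa using hdet
  intro i hi
  have hz : (fun b : T => v b) = 0 := by
    by_contra hne
    apply hdet'
    rw [← Matrix.exists_mulVec_eq_zero_iff]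
    refine ⟨fun b : T => v b, hne, ?_⟩
    funext a
    have h3 := hv (e a)
    simp only [Matrix.mulVec, dotProduct, Pi.zero_apply]
    rw [← h3]
    have h4 : ∑ i, (mu (e a) i : K) * v i = ∑ i ∈ T, (mu (e a) i : K) * v i := by
      symm
      apply Finset.sum_subset (Finset.subset_univ _)
      intro x _ hx
      rw [hs _ _ hx]
      simp
    rw [h4, ← Finset.sum_coe_sort T (fun i => (mu (e a) i : K) * v i)]
    rfl
  exact congrFun hz ⟨i, hi⟩

/-- two independent vectors -/
theorem pair_ind {n : ℕ} {mu : Fin 2 → Fin n → ℤ} (hind : LinearIndependent ℤ mu) (a b : ℤ)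
    (h : ∀ i, a * mu 0 i + b * mu 1 i = 0) : a = 0 ∧ b = 0 := by
  rw [Fintype.linearIndependent_iff] at hind
  have h1 := hind ![a, b] (by
    funext i
    simpa [Fin.sum_univ_two] using h i)
  exact ⟨by simpa using h1 0, by simpa using h1 1⟩

/-- a nonzero vector -/
theorem one_ne {R : Type} [CommRing R] [Nontrivial R] {n : ℕ} {v : Fin 1 → Fin n → R}
    (hind : LinearIndependent R v) : ∃ i, v 0 i ≠ 0 := by
  by_contra h
  push Not at h
  have := hind.ne_zero 0
  exact this (funext h)

theorem re_of_exp {z : ℂ} (h : Complex.exp z = 1) : z.re = 0 := by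
  obtain ⟨n, hn⟩ := Complex.exp_eq_one_iff.1 h
  rw [hn]
  simp

/-- the real relation obtained from a character -/
theorem re_rel {n m : ℕ} (γ : Fin m → Fin n → ℂ) (g : Fin m → ℤ) (mu : Fin n → ℤ)
    (h : Complex.exp (∑ i, (mu i : ℂ) * _root_.Trs.gp γ g i) = 1) :
    ∑ i, (mu i : ℝ) * (_root_.Trs.gp γ g i).re = 0 := by
  have h1 := re_of_exp h
  rw [Complex.re_sum] at h1
  rw [← h1]
  apply Finset.sum_congr rfl
  intro i _
  simp

end Pool.Agent.Helper38.Trs2
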