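import Pool.Agent.Helper38.Trs2.Lin

/-!
# More linear algebra for the shape conditions of the project `trs2`
-/

set_option autoImplicit false

namespace Pool.Agent.Helper38.Trs2

open Matrix TensorProduct

/-- independent integer vectors are independent over `ℂ` -/
theorem ext_ind {n c : ℕ} (mu : Fin c → Fin n → ℤ) (hind : LinearIndependent ℤ mu) :
    LinearIndependent ℂ (fun (j : Fin c) (i : Fin n) => (mu j i : ℂ)) := by
  have h := Module.Flat.linearIndependent_one_tmul (S := ℂ) hind
  have h2 := h.map' (TensorProduct.piScalarRight ℤ ℂ ℂ (Fin n)).toLinearMap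
    (LinearMap.ker_eq_bot_of_injective (LinearEquiv.injective _))
  have h3 : (fun (j : Fin c) (i : Fin n) => (mu j i : ℂ)) =
      ((TensorProduct.piScalarRight ℤ ℂ ℂ (Fin n)).toLinearMap) ∘
        fun x => (1 : ℂ) ⊗ₜ[ℤ] mu x := by
    funext j i
    simp
  rw [h3]
  exact h2

/-- independent rows: as many columns are independent -/
theorem exists_cols {e r : ℕ} (B : Fin e → Fin r → ℂ) (hB : LinearIndependent ℂ B) :
    ∃ Cx : Finset (Fin r), Cx.card = e ∧ ∀ x : Fin r → ℂ, (∀ k, k ∉ Cx → x k = 0) →
      (∀ j, ∑ k, B j k * x k = 0) → x = 0 := by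
  classical
  let M : Matrix (Fin e) (Fin r) ℂ := Matrix.of B
  have hr : M.rank = e := by
    have := LinearIndependent.rank_matrix (M := M) (by exact hB)
    simpa using this
  rw [Matrix.rank_eq_finrank_span_cols] at hr
  obtain ⟨κ, a, ha, hsp, hli⟩ := exists_linearIndependent' ℂ M.col
  have : Fintype κ := Fintype.ofInjective a ha
  have hcard : Fintype.card κ = e := by
    rw [← hr, ← hsp, finrank_span_eq_card hli]
  refine ⟨Finset.univ.image a, ?_, ?_⟩
  · rw [Finset.card_image_of_injective _ ha, Finset.card_univ, hcard]
  · intro x hx hBx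
    have h1 := Fintype.linearIndependent_iff.1 hli (fun c => x (a c)) (by
      funext j
      simp only [Finset.sum_apply, Pi.smul_apply, Function.comp_apply, smul_eq_mul,
        Pi.zero_apply]
      rw [← hBx j]
      have h2 : ∑ k, B j k * x k = ∑ k ∈ Finset.univ.image a, B j k * x k := by
        symm
        apply Finset.sum_subset (Finset.subset_univ _)
        intro k _ hk
        rw [hx k hk, mul_zero]
      rw [h2, Finset.sum_image (fun _ _ _ _ h => ha h)]
      apply Finset.sum_congr rfl
      intro c _
      simp [M, Matrix.col, mul_comm])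
    funext k
    by_cases hk : k ∈ Finset.univ.image a
    · obtain ⟨c, _, rfl⟩ := Finset.mem_image.1 hk
      exact h1 c
    · exact hx k hk

end Pool.Agent.Helper38.Trs2
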