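import Pool.Agent.Helper17.Trs2.All
import Pool.Agent.Helper17.Trs2.I0468
import Pool.Agent.Helper38.Trs2.I348
import Pool.Agent.Helper38.Trs2.I678

/-!
# Project `trs2`: counting for all nine numbers
-/

set_option autoImplicit false

namespace Pool.Agent.Helper38.Trs2

open _root_.Trs

/-- the Boolean form of the count -/
def bcount (t0 t1 t2 t3 t4 t5 t6 t7 t8 : Bool) : Bool :=
  !((t0 || t1) && (t0 || t2) && (t0 || t3) && (t1 || t2) && (t1 || t3) && (t2 || t3) &&
    (t0 || t5) && (t1 || t5) && (t3 || t5) && (t2 || t7) && (t3 || t7) &&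
    (t2 || t4 || t5) && (t2 || t4 || t6) && (t2 || t4 || t8) && (t2 || t5 || t6) &&
    (t2 || t5 || t8) && (t2 || t6 || t8) && (t4 || t7 || t8) && (t3 || t4 || t8) &&
    (t0 || t4 || t6 || t8) && (t1 || t4 || t6 || t8) && (t0 || t6 || t7 || t8) &&
    (t1 || t6 || t7 || t8) && (t4 || t5 || t6 || t7)) ||
  Nat.ble 6 (t0.toNat + t1.toNat + t2.toNat + t3.toNat + t4.toNat + t5.toNat + t6.toNat +
    t7.toNat + t8.toNat) ||
  (t0 && t1 && t2 && t3 && !t4 && !t5 && !t6 && t7 && !t8) ||
  (t0 && t1 && t2 && t3 && t4 && !t5 && !t6 && !t7 && !t8) ||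
  (!t0 && t1 && t2 && t3 && !t4 && t5 && !t6 && !t7 && t8) ||
  (t0 && !t1 && t2 && t3 && !t4 && t5 && !t6 && !t7 && t8)

theorem bcount_true : ∀ t0 t1 t2 t3 t4 t5 t6 t7 t8 : Bool,
    bcount t0 t1 t2 t3 t4 t5 t6 t7 t8 = true := by
  decide

theorem pairT {i j : Fin 9} (hij : i < j) (hj : j < 4) :
    Transcendental ℚ (nine i) ∨ Transcendental ℚ (nine j) := by
  by_contra h
  push Not at h
  exact pairs sHL hij hj (not_not.1 h.1) (not_not.1 h.2)

/-- the count, in terms of the sets of indices -/
theorem nine_count :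
    6 ≤ {i : Fin 9 | Transcendental ℚ (nine i)}.ncard ∨
      {i : Fin 9 | IsAlgebraic ℚ (nine i)} = {4, 5, 6, 8} ∨
      {i : Fin 9 | IsAlgebraic ℚ (nine i)} = {5, 6, 7, 8} ∨
      {i : Fin 9 | IsAlgebraic ℚ (nine i)} = {0, 4, 6, 7} ∨
      {i : Fin 9 | IsAlgebraic ℚ (nine i)} = {1, 4, 6, 7} := by
  classical
  obtain ⟨t, htr⟩ : ∃ t : Fin 9 → Bool, ∀ i, t i = true ↔ Transcendental ℚ (nine i) :=
    ⟨fun i => decide (Transcendental ℚ (nine i)), fun i => by simp⟩
  have hal : ∀ i, IsAlgebraic ℚ (nine i) ↔ t i = false := by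
    intro i
    rw [← Bool.not_eq_true, htr]
    unfold Transcendental
    rw [not_not]
  have two : ∀ i j : Fin 9, (Transcendental ℚ (nine i) ∨ Transcendental ℚ (nine j)) →
      (t i || t j) = true := by
    intro i j h
    rw [Bool.or_eq_true, htr, htr]
    exact h
  have som : ∀ s : Finset (Fin 9), SomeT s → ∃ i ∈ s, t i = true := by
    rintro s ⟨i, hi, h⟩
    exact ⟨i, hi, (htr i).2 h⟩
  have p01 := two 0 1 (pairT (by decide) (by decide))
  have p02 := two 0 2 (pairT (by decide) (by decide))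
  have p03 := two 0 3 (pairT (by decide) (by decide))
  have p12 := two 1 2 (pairT (by decide) (by decide))
  have p13 := two 1 3 (pairT (by decide) (by decide))
  have p23 := two 2 3 (pairT (by decide) (by decide))
  have p05 := two 0 5 (by
    by_contra h
    push Not at h
    exact five_zero sGS (not_not.1 h.1) (not_not.1 h.2))
  have p15 := two 1 5 (by
    by_contra h
    push Not at h
    exact five_one sGS (not_not.1 h.1) (not_not.1 h.2))
  have p35 := two 3 5 (by
    by_contra h
    push Not at h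
    exact five_three sGS (not_not.1 h.1) (not_not.1 h.2))
  have som2 : ∀ i j : Fin 9, SomeT {i, j} → (t i || t j) = true := by
    intro i j h
    obtain ⟨k, hk, hkt⟩ := som _ h
    simp only [Finset.mem_insert, Finset.mem_singleton] at hk
    rcases hk with rfl | rfl <;> simp [hkt]
  have som3 : ∀ i j l : Fin 9, SomeT {i, j, l} → (t i || t j || t l) = true := by
    intro i j l h
    obtain ⟨k, hk, hkt⟩ := som _ h
    simp only [Finset.mem_insert, Finset.mem_singleton] at hk
    rcases hk with rfl | rfl | rfl <;> simp [hkt]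
  have som4 : ∀ i j l m : Fin 9, SomeT {i, j, l, m} → (t i || t j || t l || t m) = true := by
    intro i j l m h
    obtain ⟨k, hk, hkt⟩ := som _ h
    simp only [Finset.mem_insert, Finset.mem_singleton] at hk
    rcases hk with rfl | rfl | rfl | rfl <;> simp [hkt]
  have q27 := som2 2 7 Pool.Agent.Helper38.PiE.s27
  have q37 := som2 3 7 Pool.Agent.Helper38.PiE.s37
  have q245 := som3 2 4 5 Pool.Agent.Helper38.PiE.s245
  have q246 := som3 2 4 6 _root_.Trs2.s246
  have q248 := som3 2 4 8 _root_.Trs2.s248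
  have q256 := som3 2 5 6 Pool.Agent.Helper38.PiE.s256
  have q258 := som3 2 5 8 sC
  have q268 := som3 2 6 8 _root_.Trs2.s268
  have q478 := som3 4 7 8 sB
  have q348 := som3 3 4 8 (st_348 _root_.Trs2.sMain)
  have q0468 := som4 0 4 6 8 (Pool.Agent.Helper17.Trs2.st_0468 _root_.Trs2.sMain)
  have q1468 := som4 1 4 6 8 (Pool.Agent.Helper17.Trs2.st_1468 _root_.Trs2.sMain)
  have q0678 := som4 0 6 7 8 (st_0678 _root_.Trs2.sMain sB)
  have q1678 := som4 1 6 7 8 (st_1678 _root_.Trs2.sMain sB)
  have q4567 := som4 4 5 6 7 sA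
  have hb := bcount_true (t 0) (t 1) (t 2) (t 3) (t 4) (t 5) (t 6) (t 7) (t 8)
  unfold bcount at hb
  rw [p01, p02, p03, p12, p13, p23, p05, p15, p35, q27, q37, q245, q246, q248, q256, q258, q268,
    q478, q348, q0468, q1468, q0678, q1678, q4567] at hb
  simp only [Bool.and_true, Bool.not_true, Bool.false_or, Bool.or_eq_true] at hb
  have hset : {i : Fin 9 | Transcendental ℚ (nine i)} =
      ((Finset.univ.filter fun i : Fin 9 => t i = true : Finset (Fin 9)) : Set (Fin 9)) := by
    ext i; simp [htr]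
  have hif : ∀ b : Bool, (if b = true then 1 else 0) = b.toNat := by decide
  have hcard : {i : Fin 9 | Transcendental ℚ (nine i)}.ncard =
      (t 0).toNat + (t 1).toNat + (t 2).toNat + (t 3).toNat + (t 4).toNat + (t 5).toNat +
        (t 6).toNat + (t 7).toNat + (t 8).toNat := by
    rw [hset, Set.ncard_coe_finset, Finset.card_filter]
    simp only [hif]
    rw [Fin.sum_univ_castSucc, Fin.sum_univ_eight]
    rfl
  have hsetA : ∀ s : Finset (Fin 9), (∀ i : Fin 9, t i = decide (i ∉ s)) →
      {i : Fin 9 | IsAlgebraic ℚ (nine i)} = (s : Set (Fin 9)) := by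
    intro s hs
    ext i
    change IsAlgebraic ℚ (nine i) ↔ i ∈ (s : Set (Fin 9))
    rw [hal, hs i]
    simp
  rcases hb with (((h | h) | h) | h) | h
  · left
    rw [hcard]
    exact Nat.le_of_ble_eq_true h
  all_goals
    simp only [Bool.and_eq_true, Bool.not_eq_true'] at h
    obtain ⟨⟨⟨⟨⟨⟨⟨⟨a0, a1⟩, a2⟩, a3⟩, a4⟩, a5⟩, a6⟩, a7⟩, a8⟩ := h
  · right; left
    have := hsetA {4, 5, 6, 8} (by
      intro i
      fin_cases i
      · exact a0
      · exact a1
      · exact a2
      · exact a3
      · exact a4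
      · exact a5
      · exact a6
      · exact a7
      · exact a8)
    simpa using this
  · right; right; left
    have := hsetA {5, 6, 7, 8} (by
      intro i
      fin_cases i
      · exact a0
      · exact a1
      · exact a2
      · exact a3
      · exact a4
      · exact a5
      · exact a6
      · exact a7
      · exact a8)
    simpa using this
  · right; right; right; left
    have := hsetA {0, 4, 6, 7} (by
      intro i
      fin_cases i
      · exact a0
      · exact a1
      · exact a2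
      · exact a3
      · exact a4
      · exact a5
      · exact a6
      · exact a7
      · exact a8)
    simpa using this
  · right; right; right; right
    have := hsetA {1, 4, 6, 7} (by
      intro i
      fin_cases i
      · exact a0
      · exact a1
      · exact a2
      · exact a3
      · exact a4
      · exact a5
      · exact a6
      · exact a7
      · exact a8)
    simpa using this

/-- **The nine numbers**: at least six are transcendental, or exactly five are, and then the
algebraic ones are one of four explicit sets. -/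
theorem nine_numbers :
    6 ≤ {i : Fin 9 | Transcendental ℤ (nine i)}.ncard ∨
      {i : Fin 9 | IsAlgebraic ℤ (nine i)} = {4, 5, 6, 8} ∨
      {i : Fin 9 | IsAlgebraic ℤ (nine i)} = {5, 6, 7, 8} ∨
      ({i : Fin 9 | IsAlgebraic ℤ (nine i)} = {0, 4, 6, 7} ∧
        ∃ r : ℚ, Real.pi + Real.exp 1 = r * Real.sqrt 2) ∨
      ({i : Fin 9 | IsAlgebraic ℤ (nine i)} = {1, 4, 6, 7} ∧
        ∃ r : ℚ, Real.pi - Real.exp 1 = r * Real.sqrt 2) := by
  have e1 : {i : Fin 9 | Transcendental ℤ (nine i)} =
      {i : Fin 9 | Transcendental ℚ (nine i)} := by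
    ext i
    exact transc_int_iff
  have e2 : {i : Fin 9 | IsAlgebraic ℤ (nine i)} = {i : Fin 9 | IsAlgebraic ℚ (nine i)} := by
    ext i
    exact IsFractionRing.isAlgebraic_iff ℤ ℚ ℝ
  rw [e1, e2]
  rcases nine_count with h | h | h | h | h
  · exact Or.inl h
  · exact Or.inr (Or.inl h)
  · exact Or.inr (Or.inr (Or.inl h))
  · refine Or.inr (Or.inr (Or.inr (Or.inl ⟨h, ?_⟩)))
    have mem : ∀ i : Fin 9, i ∈ ({0, 4, 6, 7} : Set (Fin 9)) → IsAlgebraic ℚ (nine i) := by
      intro i hi
      rw [← h] at hi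
      exact hi
    obtain ⟨r, hr⟩ := Pool.Agent.Helper17.Trs2.st_0467 _root_.Trs2.sMain (mem 0 (by simp))
      (mem 4 (by simp)) (mem 6 (by simp)) (mem 7 (by simp))
    exact ⟨r, by rw [← hr]; simp [nine]⟩
  · refine Or.inr (Or.inr (Or.inr (Or.inr ⟨h, ?_⟩)))
    have mem : ∀ i : Fin 9, i ∈ ({1, 4, 6, 7} : Set (Fin 9)) → IsAlgebraic ℚ (nine i) := by
      intro i hi
      rw [← h] at hi
      exact hi
    obtain ⟨r, hr⟩ := Pool.Agent.Helper17.Trs2.st_1467 _root_.Trs2.sMain (mem 1 (by simp))
      (mem 4 (by simp)) (mem 6 (by simp)) (mem 7 (by simp))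
    exact ⟨r, by rw [← hr]; simp [nine]⟩

end Pool.Agent.Helper38.Trs2
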