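import Pool.Agent.Helper38.Trs2.Lin2
import Pool.Agent.Helper38.Trs2.I248

/-!
# Project `trs2`: the linear shape condition for `π ± e, π^e, π^√2, e^(π²)`
-/

set_option autoImplicit false

namespace Pool.Agent.Helper38.Trs2

open Complex _root_.Trs _root_.Trs.H40 Pool.Agent.Helper38.PiE

/-- fewer equations than unknowns -/
theorem orth_exists {k n : ℕ} (h : k < n) (A : Fin k → Fin n → ℚ) :
    ∃ c : Fin n → ℚ, c ≠ 0 ∧ ∀ j, ∑ i, A j i * c i = 0 := by
  have h1 : LinearMap.ker (Matrix.mulVecLin (Matrix.of A)) ≠ ⊥ := by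
    apply LinearMap.ker_ne_bot_of_finrank_lt
    simpa using h
  obtain ⟨c, hc, hc0⟩ := (Submodule.ne_bot_iff _).1 h1
  refine ⟨c, hc0, fun j => ?_⟩
  rw [LinearMap.mem_ker] at hc
  exact congrFun hc j

/-- restriction of characters to the torus coordinates -/
theorem tail_ind {c n : ℕ} {mu : Fin c → Fin (n + 1) → ℤ} (hmu : LinearIndependent ℤ mu)
    (h0 : ∀ j, mu j 0 = 0) : LinearIndependent ℤ (fun (j : Fin c) (i : Fin n) => mu j i.succ) := by
  rw [Fintype.linearIndependent_iff] at hmu ⊢
  intro g hg
  apply hmu g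
  funext i
  refine Fin.cases ?_ (fun i => ?_) i
  · simp [Finset.sum_apply, h0]
  · have := congrFun hg i
    simpa [Finset.sum_apply] using this

/-- the three numbers `1, i al, i r2` are independent -/
theorem i_ind {al r2 : ℝ} (hir : ∀ a b : ℚ, (a : ℝ) * al + b * r2 = 0 → a = 0 ∧ b = 0)
    (a b c : ℚ) (h : (a : ℂ) - I * ((b : ℂ) * al + c * r2) = 0) : a = 0 ∧ b = 0 ∧ c = 0 := by
  have hre := congrArg Complex.re h
  have him := congrArg Complex.im h
  simp at hre him
  have h1 := hir b c (by linarith)
  exact ⟨hre, h1.1, h1.2⟩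

/-- at most two characters: the rows are independent -/
theorem rowsB {al r2 : ℝ} (hir : ∀ a b : ℚ, (a : ℝ) * al + b * r2 = 0 → a = 0 ∧ b = 0)
    {cm : ℕ} (hcm : cm ≤ 2) (m : Fin cm → Fin 4 → ℤ) (hm : LinearIndependent ℤ m) :
    LinearIndependent ℂ (fun j : Fin cm =>
      (![-(m j 0 : ℂ), al * m j 1 - I * m j 2, r2 * m j 1 - I * m j 3] : Fin 3 → ℂ)) := by
  rw [Fintype.linearIndependent_iff]
  intro c hc
  have h0 := congrFun hc 0
  have h1 := congrFun hc 1
  have h2 := congrFun hc 2
  simp at h0 h1 h2
  set v : Fin 4 → ℂ := fun i => ∑ j, c j * (m j i : ℂ) with hv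
  have v0 : v 0 = 0 := h0
  have v1 : (al : ℂ) * v 1 - I * v 2 = 0 := by
    rw [hv]
    simp only
    rw [Finset.mul_sum, Finset.mul_sum, ← Finset.sum_sub_distrib, ← h1]
    exact Finset.sum_congr rfl fun j _ => by ring
  have v2 : (r2 : ℂ) * v 1 - I * v 3 = 0 := by
    rw [hv]
    simp only
    rw [Finset.mul_sum, Finset.mul_sum, ← Finset.sum_sub_distrib, ← h2]
    exact Finset.sum_congr rfl fun j _ => by ring
  have e2 : v 2 = -(I * al) * v 1 := by
    linear_combination I * v1 + v 2 * I_sq
  have e3 : v 3 = -(I * r2) * v 1 := by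
    linear_combination I * v2 + v 3 * I_sq
  obtain ⟨d, hd, hd0⟩ := orth_exists (k := cm + 1) (n := 4) (by omega)
    (Fin.cons ![1, 0, 0, 0] (fun j i => (m j i : ℚ)))
  have d0 : d 0 = 0 := by
    have := hd0 0
    simpa [Fin.sum_univ_four] using this
  have dm : ∀ j, ∑ i, (m j i : ℚ) * d i = 0 := fun j => by
    have := hd0 j.succ
    simpa using this
  have hz : v 1 * ((d 1 : ℂ) - I * ((d 2 : ℂ) * al + d 3 * r2)) = 0 := by
    have : ∑ i, (d i : ℂ) * v i = 0 := by
      rw [hv]
      simp only
      simp_rw [Finset.mul_sum]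
      rw [Finset.sum_comm]
      apply Finset.sum_eq_zero
      intro j _
      have h5 : ∑ i, (m j i : ℂ) * (d i : ℂ) = 0 := by exact_mod_cast dm j
      have h6 : ∑ i, (d i : ℂ) * (c j * (m j i : ℂ)) = c j * ∑ i, (m j i : ℂ) * (d i : ℂ) := by
        rw [Finset.mul_sum]
        exact Finset.sum_congr rfl fun i _ => by ring
      rw [h6, h5, mul_zero]
    rw [Fin.sum_univ_four, d0, e2, e3] at this
    push_cast at this
    linear_combination this
  have hv1 : v 1 = 0 := by
    rcases mul_eq_zero.1 hz with h | h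
    · exact h
    · exfalso
      obtain ⟨a, b, c'⟩ := i_ind hir _ _ _ h
      apply hd
      funext i
      fin_cases i
      · exact d0
      · exact a
      · exact b
      · exact c'
  have hv2 : v 2 = 0 := by rw [e2, hv1, mul_zero]
  have hv3 : v 3 = 0 := by rw [e3, hv1, mul_zero]
  refine Fintype.linearIndependent_iff.1 (ext_ind m hm) c ?_
  funext i
  simp only [Finset.sum_apply, Pi.smul_apply, smul_eq_mul, Pi.zero_apply]
  fin_cases i
  · exact v0
  · exact hv1
  · exact hv2
  · exact hv3

/-- three characters -/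
theorem rowsC {al r2 : ℝ} (hir : ∀ a b : ℚ, (a : ℝ) * al + b * r2 = 0 → a = 0 ∧ b = 0)
    (m : Fin 3 → Fin 4 → ℤ) (hm : LinearIndependent ℤ m) (x0 x1 x2 : ℂ)
    (hx : ∀ j, -(m j 0 : ℂ) * x0 + (al * m j 1 - I * m j 2) * x1 +
      (r2 * m j 1 - I * m j 3) * x2 = 0) : x1 = 0 ∧ x2 = 0 := by
  obtain ⟨d, hd, hd0⟩ := orth_exists (k := 3) (n := 4) (by omega) (fun j i => (m j i : ℚ))
  obtain ⟨Cx, hCx, hC⟩ := exists_cols _ (ext_ind m hm)
  obtain ⟨k, hk⟩ : ∃ k, k ∉ Cx := by
    by_contra h
    push Not at h
    have : Cx = Finset.univ := Finset.eq_univ_iff_forall.2 h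
    rw [this] at hCx
    simp at hCx
  have hk' : ∀ i, i ∉ Cx → i = k := by
    intro i hi
    by_contra hne
    have h1 : (Cxᶜ).card = 1 := by rw [Finset.card_compl, hCx]; simp
    have h2 : ({i, k} : Finset (Fin 4)).card ≤ (Cxᶜ).card := by
      apply Finset.card_le_card
      intro j hj
      simp only [Finset.mem_insert, Finset.mem_singleton] at hj
      rcases hj with rfl | rfl
      · simpa using hi
      · simpa using hk
    rw [h1, Finset.card_pair hne] at h2
    omega
  have hdC : ∀ j, ∑ i, (m j i : ℂ) * (d i : ℂ) = 0 := fun j => by exact_mod_cast hd0 j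
  have hdk : d k ≠ 0 := by
    intro h
    apply hd
    have := hC (fun i => (d i : ℂ)) (by
      intro i hi
      rw [hk' i hi, h]
      simp) hdC
    funext i
    have h5 := congrFun this i
    simpa using h5
  have hdk' : (d k : ℂ) ≠ 0 := by exact_mod_cast hdk
  set v : Fin 4 → ℂ := ![-x0, al * x1 + r2 * x2, -(I * x1), -(I * x2)] with hv
  have hvm : ∀ j, ∑ i, (m j i : ℂ) * v i = 0 := by
    intro j
    rw [Fin.sum_univ_four]
    simp [hv]
    linear_combination hx j
  have hz := hC (fun i => v i - v k / d k * (d i : ℂ)) (by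
    intro i hi
    rw [hk' i hi]
    field_simp
    ring) (by
    intro j
    have : ∑ i, (m j i : ℂ) * (v i - v k / d k * (d i : ℂ)) =
        ∑ i, (m j i : ℂ) * v i - v k / d k * ∑ i, (m j i : ℂ) * (d i : ℂ) := by
      rw [Finset.mul_sum, ← Finset.sum_sub_distrib]
      exact Finset.sum_congr rfl fun i _ => by ring
    rw [this, hvm, hdC]
    ring)
  set z : ℂ := v k / d k with hzdef
  have f1 := congrFun hz 1
  have f2 := congrFun hz 2
  have f3 := congrFun hz 3
  simp [hv] at f1 f2 f3
  have g2 : x1 = I * (z * d 2) := by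
    linear_combination I * f2 + x1 * I_sq
  have g3 : x2 = I * (z * d 3) := by
    linear_combination I * f3 + x2 * I_sq
  have hzz : z * ((d 1 : ℂ) - I * ((d 2 : ℂ) * al + d 3 * r2)) = 0 := by
    rw [g2, g3] at f1
    linear_combination -f1
  rcases mul_eq_zero.1 hzz with h | h
  · rw [h] at g2 g3
    exact ⟨by simpa using g2, by simpa using g3⟩
  · obtain ⟨-, b, c⟩ := i_ind hir _ _ _ h
    rw [b] at g2
    rw [c] at g3
    exact ⟨by simpa using g2, by simpa using g3⟩

/-- the linear shape condition for `678` -/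
theorem shape678 (P al r2 B E : ℝ) (hP : P ≠ 0) (hB : B ≠ 0)
    (hir : ∀ a b : ℚ, (a : ℝ) * al + b * r2 = 0 → a = 0 ∧ b = 0)
    (γ : Fin 5 → Fin 5 → ℂ) (hγ : γ = ![![-1, 0, I * P, 0, 0], ![I * al, 0, 0, I * P, 0],
      ![I * r2, 0, 0, 0, I * P], ![0, I * P, (P : ℂ) ^ 2, 0, 0], ![0, B, 0, B, E]])
    (w : Fin 3 → Fin 5 → ℂ)
    (hw : w = ![![1, -1, 0, 0, 0], ![0, 0, (al : ℂ), -I, 0], ![0, 0, (r2 : ℂ), 0, -I]]) :
    Trs2.ShapeL (m := 5) (r := 3) ![false, true, true, true, true] γ w 199 151 47 198 := by
  intro ca cm lam mu hlam hmu hsl hsm h0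
  have l1 : ∀ j, lam j 1 = 0 := fun j => hsl j 1 rfl
  have l2 : ∀ j, lam j 2 = 0 := fun j => hsl j 2 rfl
  have l3 : ∀ j, lam j 3 = 0 := fun j => hsl j 3 rfl
  have l4 : ∀ j, lam j 4 = 0 := fun j => hsl j 4 rfl
  have m0 : ∀ j, mu j 0 = 0 := fun j => hsm j 0 rfl
  have hca : ca ≤ 1 := by
    have := card_le_of_supp {0} lam hlam (by
      intro j i hi
      fin_cases i
      · simp at hi
      · exact l1 j
      · exact l2 j
      · exact l3 j
      · exact l4 j)
    simpa using this
  have hms : ∀ j i, i ∉ ({1, 2, 3, 4} : Finset (Fin 5)) → mu j i = 0 := by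
    intro j i hi
    fin_cases i
    · exact m0 j
    · simp at hi
    · simp at hi
    · simp at hi
    · simp at hi
  have hcm : cm ≤ 4 := (card_le_of_supp {1, 2, 3, 4} mu hmu hms).trans (by decide)
  have hm := tail_ind hmu m0
  have g0 : ∀ g : Fin 5 → ℤ, gp γ g 0 = -g 0 + I * ((g 1 : ℂ) * al + g 2 * r2) := by
    intro g; simp [gp, hγ, Fin.sum_univ_five]; ring
  have r1 : ∀ g : Fin 5 → ℤ, (gp γ g 1).re = g 4 * B := by
    intro g; simp [gp, hγ, Fin.sum_univ_five]
  have r2' : ∀ g : Fin 5 → ℤ, (gp γ g 2).re = g 3 * P ^ 2 := by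
    intro g
    have : ((P : ℂ) ^ 2).re = P ^ 2 := by rw [← Complex.ofReal_pow, Complex.ofReal_re]
    simp [gp, hγ, Fin.sum_univ_five, this]
  have r3 : ∀ g : Fin 5 → ℤ, (gp γ g 3).re = g 4 * B := by
    intro g; simp [gp, hγ, Fin.sum_univ_five]
  -- the additive part
  have hA : ∀ g : Fin 5 → ℤ, ∀ j : Fin ca, lam j 0 ≠ 0 →
      (∑ i, lam j i * gp γ g i = 0) → g 0 = 0 ∧ g 1 = 0 ∧ g 2 = 0 := by
    intro g j hj h
    rw [Fin.sum_univ_five, l1, l2, l3, l4] at h
    have h1 : gp γ g 0 = 0 := by simpa [hj] using h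
    rw [g0] at h1
    have h2 := i_ind hir (g 0) (g 1) (g 2) (by
      push_cast
      linear_combination -h1)
    refine ⟨by exact_mod_cast h2.1, by exact_mod_cast h2.2.1, by exact_mod_cast h2.2.2⟩
  have hX0 : ∀ (x : Fin 3 → ℂ) (j : Fin ca), (∑ i, lam j i * (∑ k, x k * w k i) = 0) →
      lam j 0 * x 0 = 0 := by
    intro x j h
    rw [Fin.sum_univ_five, l1, l2, l3, l4] at h
    simpa [hw, Fin.sum_univ_three] using h
  have hX : ∀ (x : Fin 3 → ℂ) (j : Fin cm), (∑ i, (mu j i : ℂ) * (∑ k, x k * w k i) = 0) →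
      -(mu j 1 : ℂ) * x 0 + (al * mu j 2 - I * mu j 3) * x 1 +
        (r2 * mu j 2 - I * mu j 4) * x 2 = 0 := by
    intro x j h
    rw [Fin.sum_univ_five, m0] at h
    simp [hw, Fin.sum_univ_three] at h
    linear_combination h
  -- full rank for cm = 4
  have hfull : cm = 4 → ∀ g : Fin 5 → ℤ, (∀ j, Complex.exp (∑ i, (mu j i : ℂ) * gp γ g i) = 1) →
      g 3 = 0 ∧ g 4 = 0 := by
    intro hc g hg
    have h := full_rank {1, 2, 3, 4} mu hmu hms (by rw [hc]; decide) (fun i => (gp γ g i).re)
      (fun j => re_rel γ g (mu j) (hg j))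
    have h1 := h 1 (by decide)
    have h2 := h 2 (by decide)
    simp only [r1, r2'] at h1 h2
    constructor
    · simpa [hP] using h2
    · simpa [hB] using h1
  have hfullX : cm = 4 → ∀ x : Fin 3 → ℂ, (∀ j, ∑ i, (mu j i : ℂ) * (∑ k, x k * w k i) = 0) →
      x = 0 := by
    intro hc x hx
    have h := full_rank {1, 2, 3, 4} mu hmu hms (by rw [hc]; decide) (fun i => ∑ k, x k * w k i) hx
    have h1 := h 1 (by decide)
    have h2 := h 3 (by decide)
    have h3 := h 4 (by decide)
    simp [hw, Fin.sum_univ_three] at h1 h2 h3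
    funext k
    fin_cases k
    · exact h1
    · exact h2
    · exact h3
  have hca' : ca = 0 ∨ ca = 1 := by omega
  rcases hca' with rfl | rfl
  · -- ca = 0
    by_cases hc2 : cm ≤ 2
    · obtain ⟨Cx, hCx, hx⟩ := exists_cols _ (rowsB hir hc2 _ hm)
      refine ⟨∅, Cx, fun g hg _ _ => ne0 hg (by simp), fun x hx1 _ hx2 => hx x hx1 ?_, ?_⟩
      · intro j
        rw [Fin.sum_univ_three]
        exact hX x j (hx2 j)
      · rw [hCx]
        simp only [Finset.card_empty]
        omega
    · have hcm' : cm = 3 ∨ cm = 4 := by omega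
      rcases hcm' with rfl | rfl
      · -- cm = 3
        have hC : ∀ x : Fin 3 → ℂ, (∀ j, ∑ i, (mu j i : ℂ) * (∑ k, x k * w k i) = 0) →
            x 1 = 0 ∧ x 2 = 0 := fun x hx =>
          rowsC hir _ hm (x 0) (x 1) (x 2) (fun j => hX x j (hx j))
        by_cases hz : ∀ j, mu j 1 = 0
        · refine ⟨{3, 4}, {1, 2}, ?_, ?_, by decide⟩
          · intro g hg _ hg2
            have h := full_rank (K := ℝ) {2, 3, 4} mu hmu (by
              intro j i hi
              fin_cases i
              · exact m0 j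
              · exact hz j
              · simp at hi
              · simp at hi
              · simp at hi) (by decide) (fun i => (gp γ g i).re)
              (fun j => re_rel γ g (mu j) (hg2 j))
            have h2 := h 2 (by decide)
            have h3 := h 3 (by decide)
            simp only [r2', r3] at h2 h3
            refine ne0 hg ?_
            intro k hk
            simp only [Finset.mem_insert, Finset.mem_singleton] at hk
            rcases hk with rfl | rfl
            · simpa [hP] using h2
            · simpa [hB] using h3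
          · intro x hx _ hx2
            have h12 := hC x hx2
            have x0 : x 0 = 0 := hx 0 (by decide)
            funext k
            fin_cases k
            · exact x0
            · exact h12.1
            · exact h12.2
        · push Not at hz
          obtain ⟨j, hj⟩ := hz
          refine ⟨∅, Finset.univ, fun g hg _ _ => ne0 hg (by simp), fun x _ _ hx2 => ?_,
            by decide⟩
          have h12 := hC x hx2
          have h1 := hX x j (hx2 j)
          rw [h12.1, h12.2] at h1
          have hj' : (mu j 1 : ℂ) ≠ 0 := by exact_mod_cast hj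
          have x0 : x 0 = 0 := by simpa [hj'] using h1
          funext k
          fin_cases k
          · exact x0
          · exact h12.1
          · exact h12.2
      · -- cm = 4
        refine ⟨{3}, Finset.univ, ?_, fun x _ _ hx2 => hfullX rfl x hx2, by decide⟩
        intro g hg _ hg2
        refine ne0 hg ?_
        intro k hk
        rw [Finset.mem_singleton] at hk
        subst hk
        exact (hfull rfl g hg2).1
  · -- ca = 1
    have hl0 : lam 0 0 ≠ 0 := by
      obtain ⟨i, hi⟩ := one_ne hlam
      fin_cases i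
      · exact hi
      · exact absurd (l1 0) hi
      · exact absurd (l2 0) hi
      · exact absurd (l3 0) hi
      · exact absurd (l4 0) hi
    have hcm' : cm = 0 ∨ cm = 1 ∨ cm = 2 ∨ cm = 3 ∨ cm = 4 := by omega
    have hax : ∀ g : Fin 5 → ℤ, (∀ k, k ∉ ({0, 1, 2} : Finset (Fin 5)) → g k = 0) →
        (∀ j, ∑ i, lam j i * gp γ g i = 0) → g = 0 := by
      intro g hg hg1
      have h1 := hA g 0 hl0 (hg1 0)
      refine ne0 hg ?_
      intro k hk
      simp only [Finset.mem_insert, Finset.mem_singleton] at hk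
      rcases hk with rfl | rfl | rfl
      · exact h1.1
      · exact h1.2.1
      · exact h1.2.2
    -- one nonzero row gives a column
    have hcol : ∀ j : Fin cm, ¬ (mu j 2 = 0 ∧ mu j 3 = 0 ∧ mu j 4 = 0) →
        ∃ Cx : Finset (Fin 3), Cx.card = 2 ∧ ∀ x : Fin 3 → ℂ, (∀ k, k ∉ Cx → x k = 0) →
          (∀ j, ∑ i, lam j i * (∑ k, x k * w k i) = 0) →
          (∀ j, ∑ i, (mu j i : ℂ) * (∑ k, x k * w k i) = 0) → x = 0 := by
      intro j hj
      by_cases h1 : (al * mu j 2 - I * mu j 3 : ℂ) = 0
      · have h2 : (r2 * mu j 2 - I * mu j 4 : ℂ) ≠ 0 := by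
          intro h2
          have e1 := congrArg Complex.im h1
          have e2 := congrArg Complex.im h2
          have e3 := congrArg Complex.re h1
          have e4 := congrArg Complex.re h2
          simp at e1 e2 e3 e4
          have : mu j 2 = 0 := by
            by_contra h
            have hal : al = 0 := e3.resolve_right h
            have := hir 1 0 (by rw [hal]; simp)
            simp at this
          exact hj ⟨this, e1, e2⟩
        refine ⟨{0, 2}, by decide, ?_⟩
        intro x hx hx1 hx2
        have x0 : x 0 = 0 := (mul_eq_zero.1 (hX0 x 0 (hx1 0))).resolve_left hl0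
        have x1 : x 1 = 0 := hx 1 (by decide)
        have h3 := hX x j (hx2 j)
        rw [x0, x1] at h3
        have x2 : x 2 = 0 := by
          have : (r2 * mu j 2 - I * mu j 4 : ℂ) * x 2 = 0 := by linear_combination h3
          exact (mul_eq_zero.1 this).resolve_left h2
        funext k
        fin_cases k
        · exact x0
        · exact x1
        · exact x2
      · refine ⟨{0, 1}, by decide, ?_⟩
        intro x hx hx1 hx2
        have x0 : x 0 = 0 := (mul_eq_zero.1 (hX0 x 0 (hx1 0))).resolve_left hl0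
        have x2 : x 2 = 0 := hx 2 (by decide)
        have h3 := hX x j (hx2 j)
        rw [x0, x2] at h3
        have x1 : x 1 = 0 := by
          have : (al * mu j 2 - I * mu j 3 : ℂ) * x 1 = 0 := by linear_combination h3
          exact (mul_eq_zero.1 this).resolve_left h1
        funext k
        fin_cases k
        · exact x0
        · exact x1
        · exact x2
    rcases hcm' with rfl | rfl | rfl | rfl | rfl
    · -- cm = 0
      refine ⟨{0, 1, 2}, {0}, fun g hg hg1 _ => hax g hg hg1, ?_, by decide⟩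
      intro x hx hx1 _
      have h1 := hX0 x 0 (hx1 0)
      have x0 : x 0 = 0 := (mul_eq_zero.1 h1).resolve_left hl0
      refine funext fun k => ?_
      by_cases hk : k ∈ ({0} : Finset (Fin 3))
      · rw [Finset.mem_singleton.1 hk]
        exact x0
      · exact hx k hk
    · -- cm = 1
      by_cases hmm : mu 0 2 = 0 ∧ mu 0 3 = 0 ∧ mu 0 4 = 0
      · have hm1 : mu 0 1 ≠ 0 := by
          intro h
          obtain ⟨i, hi⟩ := one_ne hmu
          apply hi
          fin_cases i
          · exact m0 0
          · exact h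
          · exact hmm.1
          · exact hmm.2.1
          · exact hmm.2.2
        refine ⟨{0, 1, 2, 4}, {0}, ?_, ?_, by decide⟩
        · intro g hg hg1 hg2
          have h1 := hA g 0 hl0 (hg1 0)
          have h2 := re_rel γ g (mu 0) (hg2 0)
          rw [Fin.sum_univ_five, m0, hmm.1, hmm.2.1, hmm.2.2, r1] at h2
          have hm1' : (mu 0 1 : ℝ) ≠ 0 := by exact_mod_cast hm1
          have g4 : g 4 = 0 := by simpa [hm1', hB] using h2
          refine ne0 hg ?_
          intro k hk
          simp only [Finset.mem_insert, Finset.mem_singleton] at hk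
          rcases hk with rfl | rfl | rfl | rfl
          · exact h1.1
          · exact h1.2.1
          · exact h1.2.2
          · exact g4
        · intro x hx hx1 _
          have h1 := hX0 x 0 (hx1 0)
          have x0 : x 0 = 0 := (mul_eq_zero.1 h1).resolve_left hl0
          refine funext fun k => ?_
          by_cases hk : k ∈ ({0} : Finset (Fin 3))
          · rw [Finset.mem_singleton.1 hk]
            exact x0
          · exact hx k hk
      · obtain ⟨Cx, hCx, hC⟩ := hcol 0 hmm
        refine ⟨∅, Cx, fun g hg _ _ => ne0 hg (by simp), hC, ?_⟩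
        rw [hCx]; decide
    · -- cm = 2
      obtain ⟨j, hj⟩ : ∃ j : Fin 2, ¬ (mu j 2 = 0 ∧ mu j 3 = 0 ∧ mu j 4 = 0) := by
        by_contra hcon
        push Not at hcon
        have a := hcon 0
        have b := hcon 1
        have key := pair_ind hmu (mu 1 1) (-mu 0 1) (by
          intro i
          fin_cases i
          · simp [m0]
          · simp; ring
          · simp [a.1, b.1]
          · simp [a.2.1, b.2.1]
          · simp [a.2.2, b.2.2])
        have key2 := pair_ind hmu 1 0 (by
          intro i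
          fin_cases i
          · simp [m0]
          · simpa using key.2
          · simp [a.1]
          · simp [a.2.1]
          · simp [a.2.2])
        simp at key2
      obtain ⟨Cx, hCx, hC⟩ := hcol j hj
      refine ⟨{0, 1, 2}, Cx, fun g hg hg1 _ => hax g hg hg1, hC, ?_⟩
      rw [hCx]; decide
    · -- cm = 3
      refine ⟨{0, 1, 2}, Finset.univ, fun g hg hg1 _ => hax g hg hg1, ?_, by decide⟩
      intro x _ hx1 hx2
      have h12 := rowsC hir _ hm (x 0) (x 1) (x 2) (fun j => hX x j (hx2 j))
      have x0 : x 0 = 0 := (mul_eq_zero.1 (hX0 x 0 (hx1 0))).resolve_left hl0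
      funext k
      fin_cases k
      · exact x0
      · exact h12.1
      · exact h12.2
    · -- cm = 4
      refine ⟨Finset.univ, Finset.univ, ?_, fun x _ _ hx2 => hfullX rfl x hx2, by decide⟩
      intro g _ hg1 hg2
      have h1 := hA g 0 hl0 (hg1 0)
      have h2 := hfull rfl g hg2
      funext k
      fin_cases k
      · exact h1.1
      · exact h1.2.1
      · exact h1.2.2
      · exact h2.1
      · exact h2.2

end Pool.Agent.Helper38.Trs2
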